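import Pool.Agent.X261.TS.Tow

/-!
The curves `y ^ q = f(x) - t ^ (p ^ b)`, twisted, in the Kummer towers.
-/

set_option autoImplicit false
set_option linter.all false

open Polynomial IsDedekindDomain
open scoped Classical

namespace Pool.Agent.X261.TS

open Pool.Agent.Y160.SL (IsTowerCurve atZero powT)
open Pool.Agent.Y160.FT (Pres)

section graph

variable {k : Type} [Field k]

/-- The polynomial `f(x) - t ^ m`. -/
noncomputable def kgraph (f0 : k[X]) (m : ℕ) : k[X][X] := f0.map C - C (X ^ m)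

theorem kgraph_one (f0 : k[X]) : kgraph f0 1 = graph f0 := by
  unfold kgraph graph
  rw [pow_one]

theorem powT_kgraph {p : ℕ} (hp : 0 < p) (f0 : k[X]) (m : ℕ) :
    powT p (kgraph f0 m) = kgraph f0 (p * m) := by
  unfold powT kgraph
  rw [Polynomial.map_sub, map_C, Polynomial.map_map]
  congr 1
  · congr 1
    apply RingHom.ext
    intro x
    show expand k p (C x) = C x
    rw [expand_C]
  · congr 1
    show expand k p (X ^ m) = _
    rw [map_pow, expand_X, ← pow_mul]

theorem atZero_kgraph (f0 : k[X]) {m : ℕ} (hm : 0 < m) : atZero (kgraph f0 m) = f0 := by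
  unfold atZero kgraph
  rw [Polynomial.map_sub, map_C, Polynomial.map_map]
  have e : (evalRingHom (0 : k)).comp (C : k →+* k[X]) = RingHom.id k := RingHom.ext fun x => by
    show (C x).eval 0 = x
    rw [eval_C]
  rw [e, Polynomial.map_id]
  have e2 : (evalRingHom (0 : k)) (X ^ m) = 0 := by
    show (X ^ m : k[X]).eval 0 = 0
    rw [eval_pow, eval_X, zero_pow hm.ne']
  rw [e2, C_0, sub_zero]

theorem tower_kgraph {p : ℕ} (hp : p.Prime) {f0 : k[X]} (hirr : Irreducible f0)
    (hsep : f0.Separable) (hcop : p.Coprime f0.natDegree) (b : ℕ) :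
    IsTowerCurve p (kgraph f0 (p ^ b)) := by
  induction b with
  | zero =>
    rw [pow_zero, kgraph_one]
    exact tower_graph p f0
  | succ b ih =>
    rw [pow_succ', ← powT_kgraph hp.pos]
    have h0 := atZero_kgraph f0 (pow_pos hp.pos b)
    exact ih.root _ (by rwa [h0]) (by rwa [h0]) (by rwa [h0])

theorem monic_kgraph {f0 : k[X]} (hm : f0.Monic) (hn : 0 < f0.natDegree) (m : ℕ) :
    (kgraph f0 m).Monic := by
  have h1 : (f0.map C : k[X][X]).Monic := hm.map _
  apply h1.sub_of_left
  rw [degree_map_eq_of_injective C_injective]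
  exact lt_of_le_of_lt degree_C_le (natDegree_pos_iff_degree_pos.1 hn)

theorem natDegree_kgraph (f0 : k[X]) (m : ℕ) : (kgraph f0 m).natDegree = f0.natDegree := by
  unfold kgraph
  rw [natDegree_sub_C, natDegree_map_eq_of_injective C_injective]

theorem kgraph_map {k' : Type} [Field k'] (φ : k →+* k') (f0 : k[X]) (m : ℕ) :
    (kgraph f0 m).map (mapRingHom φ) = kgraph (f0.map φ) m := by
  unfold kgraph
  rw [Polynomial.map_sub, map_C, Polynomial.map_map, Polynomial.map_map]
  congr 1
  · congr 1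
    apply RingHom.ext
    intro x
    show (C x).map φ = C (φ x)
    rw [map_C]
  · congr 1
    show (X ^ m : k[X]).map φ = X ^ m
    rw [Polynomial.map_pow, map_X]

end graph

section pres

variable {k R : Type} [Field k] [CommRing R] [Algebra k R] {t x : R} {f : k[X][X]}

/-- The converse of `prime_of_pres`. -/
theorem irr_of_pres (h : Pres t x f) (hm : f.Monic) (hn : 0 < f.natDegree) {P : k[X]}
    (hP : Irreducible P) (hpr : Prime (aeval t P)) : Irreducible (f.map (AdjoinRoot.mk P)) := by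
  haveI : Fact (Irreducible P) := ⟨hP⟩
  refine Prime.irreducible ⟨(hm.map _).ne_zero, ?_, ?_⟩
  · intro hu
    have h1 := natDegree_eq_zero_of_isUnit hu
    rw [hm.natDegree_map] at h1
    omega
  · intro a b hab
    obtain ⟨a', rfl⟩ := Polynomial.map_surjective (AdjoinRoot.mk P) AdjoinRoot.mk_surjective a
    obtain ⟨b', rfl⟩ := Polynomial.map_surjective (AdjoinRoot.mk P) AdjoinRoot.mk_surjective b
    rw [← Polynomial.map_mul, ← dvd_pres h, eval₂_mul] at hab
    rw [← dvd_pres h, ← dvd_pres h]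
    exact hpr.dvd_or_dvd hab

end pres

section inert

variable {k : Type} [Field k]

theorem graph_mod {f0 : k[X]} (hm : f0.Monic) (hn : 0 < f0.natDegree) {P : k[X]}
    (hP : Irreducible P) (hin : Irreducible (P.comp f0)) :
    Irreducible ((graph f0).map (AdjoinRoot.mk P)) :=
  irr_of_pres (pres_graph f0) (monic_graph hm hn) (by rwa [natDegree_graph]) hP hin.prime

theorem eval_expand {S : Type} [CommRing S] (φ : k →+* S) (x : S) (p : ℕ) (P : k[X]) :
    eval₂ φ x (expand k p P) = eval₂ φ (x ^ p) P := by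
  rw [expand_eq_comp_X_pow, eval₂_comp, eval₂_pow, eval₂_X]

/-- The homomorphism `t ↦ t ^ p` of residue fields. -/
noncomputable def powMap {p : ℕ} {P Q : k[X]} (h : Q ∣ expand k p P) :
    AdjoinRoot P →+* AdjoinRoot Q :=
  AdjoinRoot.lift (AdjoinRoot.of Q) (AdjoinRoot.root Q ^ p) (by
    have e : eval₂ (AdjoinRoot.of Q) (AdjoinRoot.root Q ^ p) P =
        eval₂ (AdjoinRoot.of Q) (AdjoinRoot.root Q) (expand k p P) :=
      (eval_expand _ _ _ _).symm
    rw [e]
    obtain ⟨Z, hZ⟩ := h
    rw [hZ, eval₂_mul, AdjoinRoot.eval₂_root, zero_mul])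

theorem powMap_mk {p : ℕ} {P Q : k[X]} (h : Q ∣ expand k p P) :
    (powMap h).comp (AdjoinRoot.mk P) =
      (AdjoinRoot.mk Q).comp (expand k p : k[X] →+* k[X]) := by
  apply RingHom.ext
  intro g
  show powMap h (AdjoinRoot.mk P g) = AdjoinRoot.mk Q (expand k p g)
  unfold powMap
  rw [AdjoinRoot.lift_mk, ← eval_expand, ← AdjoinRoot.aeval_eq, aeval_def]
  rfl

/-- The degree of the residue field extension. -/
theorem pow_degree {p : ℕ} (hp : p.Prime) {ζ : k} (hζ : IsPrimitiveRoot ζ p) {P Q : k[X]}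
    (hP : Irreducible P) (hQ : Irreducible Q) (h : Q ∣ expand k p P) :
    letI : Algebra (AdjoinRoot P) (AdjoinRoot Q) := (powMap h).toAlgebra
    Module.Finite (AdjoinRoot P) (AdjoinRoot Q) ∧
      Module.finrank (AdjoinRoot P) (AdjoinRoot Q) ∣ p := by
  haveI : Fact (Irreducible P) := ⟨hP⟩
  haveI : Fact (Irreducible Q) := ⟨hQ⟩
  letI : Algebra (AdjoinRoot P) (AdjoinRoot Q) := (powMap h).toAlgebra
  set β : AdjoinRoot Q := AdjoinRoot.root Q with hβ
  set α : AdjoinRoot P := AdjoinRoot.root P with hα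
  have hab : algebraMap (AdjoinRoot P) (AdjoinRoot Q) α = β ^ p := by
    show powMap h (AdjoinRoot.root P) = _
    unfold powMap
    rw [AdjoinRoot.lift_root]
  have hof : ∀ c : k, algebraMap (AdjoinRoot P) (AdjoinRoot Q) (AdjoinRoot.of P c) =
      AdjoinRoot.of Q c := by
    intro c
    show powMap h (AdjoinRoot.of P c) = _
    unfold powMap
    rw [AdjoinRoot.lift_of]
  have hroot : aeval β (X ^ p - C α : (AdjoinRoot P)[X]) = 0 := by
    rw [map_sub, map_pow, aeval_X, aeval_C, hab, sub_self]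
  have hint : IsIntegral (AdjoinRoot P) β := ⟨X ^ p - C α, monic_X_pow_sub_C α hp.ne_zero, by
    rw [← aeval_def]
    exact hroot⟩
  have htop : IntermediateField.adjoin (AdjoinRoot P) {β} = ⊤ := by
    rw [eq_top_iff]
    intro y _
    obtain ⟨g, rfl⟩ := AdjoinRoot.mk_surjective y
    have hβm : β ∈ IntermediateField.adjoin (AdjoinRoot P) {β} :=
      IntermediateField.mem_adjoin_simple_self _ β
    induction g using Polynomial.induction_on' with
    | add g1 g2 h1 h2 =>
      rw [map_add]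
      exact add_mem (h1 trivial) (h2 trivial)
    | monomial n a =>
      rw [← C_mul_X_pow_eq_monomial, map_mul, map_pow, AdjoinRoot.mk_X, AdjoinRoot.mk_C, ← hof]
      exact mul_mem (IntermediateField.algebraMap_mem _ _) (pow_mem hβm n)
  have hfin : FiniteDimensional (AdjoinRoot P) (IntermediateField.adjoin (AdjoinRoot P) {β}) :=
    IntermediateField.adjoin.finiteDimensional hint
  have hdeg : Module.finrank (AdjoinRoot P) (AdjoinRoot Q) = (minpoly (AdjoinRoot P) β).natDegree := by
    rw [← IntermediateField.adjoin.finrank hint, htop, IntermediateField.finrank_top']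
  have hfd : Module.Finite (AdjoinRoot P) (AdjoinRoot Q) := by
    rw [htop] at hfin
    exact Module.Finite.equiv (IntermediateField.topEquiv (F := AdjoinRoot P)
      (E := AdjoinRoot Q)).toLinearEquiv
  refine ⟨hfd, ?_⟩
  rw [hdeg]
  by_cases hα' : ∃ γ : AdjoinRoot P, γ ^ p = α
  · obtain ⟨γ, hγ⟩ := hα'
    have hζP : IsPrimitiveRoot (AdjoinRoot.of Q ζ) p :=
      hζ.map_of_injective (AdjoinRoot.of Q).injective
    by_cases hβ0 : β = 0
    · have e : minpoly (AdjoinRoot P) β = X := by
        rw [hβ0]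
        exact minpoly.zero _ _
      rw [e, natDegree_X]
      exact one_dvd p
    · have h1 : (algebraMap (AdjoinRoot P) (AdjoinRoot Q) γ / β) ^ p = 1 := by
        rw [div_pow, ← map_pow, hγ, hab, div_self (pow_ne_zero p hβ0)]
      haveI : NeZero p := ⟨hp.ne_zero⟩
      obtain ⟨i, -, hi⟩ := hζP.eq_pow_of_pow_eq_one h1
      have hζ0 : AdjoinRoot.of Q ζ ^ i ≠ 0 := pow_ne_zero i (hζP.ne_zero hp.ne_zero)
      have h2 : β = algebraMap (AdjoinRoot P) (AdjoinRoot Q) (γ / AdjoinRoot.of P ζ ^ i) := by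
        rw [map_div₀, map_pow, hof, hi]
        have hg0 : algebraMap (AdjoinRoot P) (AdjoinRoot Q) γ ≠ 0 := by
          intro h0
          rw [h0, zero_div, zero_pow hp.ne_zero] at h1
          exact zero_ne_one h1
        field_simp
      rw [h2, minpoly.eq_X_sub_C, natDegree_X_sub_C]
      exact one_dvd p
  · have hirr : Irreducible (X ^ p - C α : (AdjoinRoot P)[X]) :=
      X_pow_sub_C_irreducible_of_prime hp fun b hb => hα' ⟨b, hb⟩
    rw [← minpoly.eq_of_irreducible_of_monic hirr hroot (monic_X_pow_sub_C α hp.ne_zero),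
      natDegree_X_pow_sub_C]

theorem kum_step {p : ℕ} (hp : p.Prime) {ζ : k} (hζ : IsPrimitiveRoot ζ p) {f0 : k[X]}
    (hm : f0.Monic) (hcop : p.Coprime f0.natDegree) {m : ℕ} {P Q : k[X]} (hP : Irreducible P)
    (hQ : Irreducible Q) (h : Q ∣ expand k p P)
    (hin : Irreducible ((kgraph f0 m).map (AdjoinRoot.mk P))) :
    Irreducible ((kgraph f0 (p * m)).map (AdjoinRoot.mk Q)) := by
  haveI : Fact (Irreducible P) := ⟨hP⟩
  haveI : Fact (Irreducible Q) := ⟨hQ⟩
  obtain ⟨h1, h2⟩ := pow_degree hp hζ hP hQ h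
  letI : Algebra (AdjoinRoot P) (AdjoinRoot Q) := (powMap h).toAlgebra
  haveI : Module.Finite (AdjoinRoot P) (AdjoinRoot Q) := h1
  have hn : 0 < f0.natDegree := by
    rcases Nat.eq_zero_or_pos f0.natDegree with h0 | h0
    · rw [h0, Nat.coprime_zero_right] at hcop
      exact absurd hcop hp.one_lt.ne'
    · exact h0
  have e : (kgraph f0 (p * m)).map (AdjoinRoot.mk Q) =
      ((kgraph f0 m).map (AdjoinRoot.mk P)).map (algebraMap (AdjoinRoot P) (AdjoinRoot Q)) := by
    rw [← powT_kgraph hp.pos]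
    unfold powT
    rw [Polynomial.map_map, Polynomial.map_map]
    congr 1
    exact (powMap_mk h).symm
  rw [e]
  refine Pool.Agent.X261.AA.irr_of_coprime hin ?_
  rw [(monic_kgraph hm hn m).natDegree_map, natDegree_kgraph]
  exact Nat.Coprime.coprime_dvd_left h2 hcop

theorem exists_below_expand {p : ℕ} (hp : 0 < p) {D : k[X]} (hD : D ≠ 0) {Q : k[X]}
    (hQ : Irreducible Q) (hd : Q ∣ expand k p D) :
    ∃ P : k[X], Irreducible P ∧ P ∣ D ∧ Q ∣ expand k p P := by
  have key : ∀ (n : ℕ) (Z : k[X]), Z.natDegree = n → Z ≠ 0 → Z ∣ D →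
      Q ∣ expand k p Z → ∃ P : k[X], Irreducible P ∧ P ∣ D ∧ Q ∣ expand k p P := by
    intro n
    induction n using Nat.strong_induction_on with
    | _ n ih =>
      intro Z hn hZ0 hZD hQZ
      by_cases hu : IsUnit Z
      · exact absurd (isUnit_of_dvd_unit hQZ (hu.map (expand k p))) hQ.not_isUnit
      · obtain ⟨P, hP, Y, hY⟩ := WfDvdMonoid.exists_irreducible_factor hu hZ0
        rw [hY, map_mul] at hQZ
        rcases hQ.prime.dvd_or_dvd hQZ with h | h
        · exact ⟨P, hP, (Dvd.intro _ hY.symm).trans hZD, h⟩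
        · have hY0 : Y ≠ 0 := by
            rintro rfl
            rw [mul_zero] at hY
            exact hZ0 hY
          refine ih Y.natDegree ?_ Y rfl hY0 ((Dvd.intro_left _ hY.symm).trans hZD) h
          rw [← hn, hY, natDegree_mul hP.ne_zero hY0]
          have := hP.natDegree_pos
          omega
  exact key _ D rfl hD dvd_rfl hd

theorem kum_inert {p : ℕ} (hp : p.Prime) {ζ : k} (hζ : IsPrimitiveRoot ζ p) {f0 : k[X]}
    (hm : f0.Monic) (hcop : p.Coprime f0.natDegree) {D : k[X]} (hD : D ≠ 0)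
    (hin : ∀ P : k[X], Irreducible P → P ∣ D → Irreducible (P.comp f0)) (b : ℕ) :
    ∀ Q : k[X], Irreducible Q → Q ∣ expand k (p ^ b) D →
      Irreducible ((kgraph f0 (p ^ b)).map (AdjoinRoot.mk Q)) := by
  have hn : 0 < f0.natDegree := by
    rcases Nat.eq_zero_or_pos f0.natDegree with h0 | h0
    · rw [h0, Nat.coprime_zero_right] at hcop
      exact absurd hcop hp.one_lt.ne'
    · exact h0
  induction b with
  | zero =>
    intro Q hQ hd
    rw [pow_zero, expand_one] at hd
    rw [pow_zero, kgraph_one]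
    exact graph_mod hm hn hQ (hin Q hQ hd)
  | succ b ih =>
    intro Q hQ hd
    rw [pow_succ', expand_mul] at hd
    obtain ⟨P, hP, hPD, hQP⟩ := exists_below_expand hp.pos
      ((expand_ne_zero (pow_pos hp.pos b)).2 hD) hQ hd
    rw [pow_succ']
    exact kum_step hp hζ hm hcop hP hQ hQP (ih P hP hPD)

end inert

section res

open Pool.Agent.TH115.GD (IsTower Sep Comp)
open Pool.Agent.Y160
open Pool.Agent.Y160.SL (Concl IsCoc IsCobOf LocTriv ShaTriv Jac)

variable {k K : Type} [Field k] [Field K] [Algebra k[X] K] [IsFractionRing k[X] K]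

/-- The twists of `y ^ q = f(x) - t ^ (p ^ b)`, over `K`. -/
theorem kum_res {p s : ℕ} (hp : p.Prime) {ζ : k} (hζ : IsPrimitiveRoot ζ (p ^ (s + 1)))
    {f0 : k[X]} (hmon : f0.Monic) (hirr : Irreducible f0) (hsep : f0.Separable)
    (hcop : p.Coprime f0.natDegree) {D : k[X]}
    (hD : D ≠ 0) (hin : ∀ P : k[X], Irreducible P → P ∣ D → Irreducible (P.comp f0)) (b : ℕ)
    {D' : k[X]} (hD' : D' ≠ 0)
    (hdd : ∀ Q : k[X], Irreducible Q → Q ∣ D' → Q ∣ expand k (p ^ b) D) :
    ShaTriv p (p ^ (s + 1)) k[X]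
      (((kgraph f0 (p ^ b)).scaleRoots D').map (algebraMap k[X] K)) ∧
      ∀ (n : ℕ) (x : Jac (p ^ (s + 1))
        (((kgraph f0 (p ^ b)).scaleRoots D').map (algebraMap k[X] K)) K),
        ∃ y, x = p ^ n • y := by
  obtain ⟨k', F, _, _, _, _, _, _, hT⟩ := exists_tower k K
  have hζ' : IsPrimitiveRoot (ζ ^ (p ^ s)) p :=
    hζ.pow (pow_pos hp.pos _) (by rw [pow_succ])
  have hn : 0 < f0.natDegree := hirr.natDegree_pos
  have hm := monic_kgraph hmon hn (p ^ b)
  have ht := tower_kgraph hp hirr hsep hcop b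
  have hcop' : p.Coprime (kgraph f0 (p ^ b)).natDegree := by rwa [natDegree_kgraph]
  have hirrK : Irreducible ((kgraph f0 (p ^ b)).map (algebraMap k[X] K)) :=
    Polynomial.Monic.irreducible_of_irreducible_map (algebraMap K F) _ (hm.map _)
      (irrF hT hp ht hm)
  have hsepK : ((kgraph f0 (p ^ b)).map (algebraMap k[X] K)).Separable := by
    rw [separable_iff_derivative_ne_zero hirrK, derivative_map]
    unfold kgraph
    rw [derivative_sub, derivative_C, sub_zero, derivative_map, Polynomial.map_map]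
    rw [Polynomial.map_ne_zero_iff]
    · intro h0
      rw [Polynomial.separable_def, h0, isCoprime_zero_right] at hsep
      exact hirr.not_isUnit hsep
    · exact (IsFractionRing.injective k[X] K).comp C_injective
  have h := towerS hT hp hζ ht hm hcop' hsepK hD' fun Q hQ hQD =>
    kum_inert hp hζ' hmon hcop hD hin b Q hQ (hdd Q hQ hQD)
  exact ⟨h.sha, divisible h.basis⟩

end res

end Pool.Agent.X261.TS
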