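import Pool.Agent.X261.TS.Res
import Pool.Agent.X261.TD.Cnt
import Pool.Agent.X231.BT.Ext

/-!
Extensions of the constants and the number of the inert primes.
-/

set_option autoImplicit false
set_option linter.all false

open Polynomial
open scoped Classical

namespace Pool.Agent.X261.TS

section ext

variable {k k' : Type} [Field k] [Finite k] [Field k'] [Finite k'] [Algebra k k'] {f D : k[X]}

theorem inert_of_dvd (hf : f.Monic) (hf0 : 0 < f.natDegree) (hD : D ≠ 0)
    (hin : ∀ P : k[X], Irreducible P → P ∣ D → Irreducible (P.comp f))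
    (hr : Nat.Coprime f.natDegree (Module.finrank k k')) {Q : k'[X]} (hQ : Irreducible Q)
    (hd : Q ∣ D.map (algebraMap k k')) : Irreducible (Q.comp (f.map (algebraMap k k'))) := by
  obtain ⟨Q1, δ, hδ, hQ1⟩ := Pool.Agent.TH943.HJ.exists_MI_eq hQ
  have hD' : D.map (algebraMap k k') ≠ 0 :=
    (Polynomial.map_ne_zero_iff (algebraMap k k').injective).2 hD
  have h1 := Pool.Agent.X231.BT.inert_all hf hf0 hD hr (fun P hP => by
    obtain ⟨-, h3, h4⟩ := (Pool.Agent.TH943.HJ.mem_primes hD P).1 hP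
    exact hin P h3 h4) Q1.1 ((Pool.Agent.TH943.HJ.mem_primes hD' _).2 ⟨Q1.2.1, Q1.2.2,
      (Dvd.intro_left (C δ) hQ1.symm).trans hd⟩)
  rw [hQ1, mul_comp, C_comp]
  exact (irreducible_isUnit_mul (isUnit_C.2 (isUnit_iff_ne_zero.2 hδ))).2 h1

end ext

section count

variable {k : Type} [Field k] [Finite k]

theorem three_le_card (h2 : (2 : k) ≠ 0) : 3 ≤ Nat.card k := by
  have h1 : 1 < Nat.card k := Finite.one_lt_card
  have h3 : ((Nat.card k : ℕ) : ZMod 2) = 1 := Pool.Agent.W343.BSD.card_odd h2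
  rcases Nat.lt_or_ge (Nat.card k) 3 with h | h
  · exfalso
    have h4 : Nat.card k = 2 := by omega
    rw [h4] at h3
    exact absurd h3 (by decide)
  · exact h

omit [Finite k] in
theorem geom_bound {q : ℕ} (hq : 3 ≤ q) (m : ℕ) :
    2 * ∑ i ∈ Finset.Icc 1 m, q ^ i ≤ 3 * q ^ m := by
  induction m with
  | zero => simp
  | succ m ih =>
    rw [Finset.sum_Icc_succ_top (by omega), mul_add, pow_succ]
    have h1 : 3 * q ^ m ≤ q ^ m * q := by
      rw [mul_comm]
      exact Nat.mul_le_mul_left _ hq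
    nlinarith

omit [Finite k] in
theorem divisor_bound {q : ℕ} (hq : 3 ≤ q) (N : ℕ) :
    3 * ∑ d ∈ N.properDivisors, q ^ d + 1 ≤ 6 * q ^ (N / 2) := by
  have h1 : ∑ d ∈ N.properDivisors, q ^ d ≤ ∑ i ∈ Finset.Icc 1 (N / 2), q ^ i := by
    refine Finset.sum_le_sum_of_subset fun d hd => ?_
    rw [Nat.mem_properDivisors] at hd
    rw [Finset.mem_Icc]
    obtain ⟨⟨c, hc⟩, hlt⟩ := hd
    have hd0 : 0 < d := by
      rcases Nat.eq_zero_or_pos d with h | h
      · rw [h, zero_mul] at hc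
        omega
      · exact h
    have hc2 : 2 ≤ c := by
      rcases Nat.lt_or_ge c 2 with h | h
      · exfalso
        have : c ≤ 1 := by omega
        have h3 : d * c ≤ d * 1 := Nat.mul_le_mul_left _ this
        omega
      · exact h
    refine ⟨hd0, ?_⟩
    rw [Nat.le_div_iff_mul_le (by norm_num), hc]
    exact Nat.mul_le_mul_left _ hc2
  have h2 := geom_bound hq (N / 2)
  have h3 : 1 ≤ q ^ (N / 2) := Nat.one_le_pow _ _ (by omega)
  omega

/-- the number of the inert primes -/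
theorem inert_bounds {f : k[X]} (h2 : (2 : k) ≠ 0) (h3 : (3 : k) ≠ 0) (hm : f.Monic)
    (hd : f.natDegree = 3) (hg : f.coeff 2 ^ 2 ≠ 3 * f.coeff 1) {N : ℕ} (hN : 0 < N) :
    Nat.card k ^ N ≤ 3 * (N * {P ∈ TD.irr k N | Irreducible (P.comp f)}.ncard) +
      6 * Nat.card k ^ (N / 2) ∧
    3 * (N * {P ∈ TD.irr k N | Irreducible (P.comp f)}.ncard) ≤ Nat.card k ^ N +
      6 * Nat.card k ^ (N / 2) := by
  have h1 := Pool.Agent.TH943.PT.inert_count h2 h3 hm hd hg hN
  have h0 : {P : {P : k[X] // P.Monic ∧ Irreducible P} | P.1.natDegree = N ∧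
      Irreducible (P.1.comp f)}.ncard = {P ∈ TD.irr k N | Irreducible (P.comp f)}.ncard := by
    rw [← Set.ncard_image_of_injective _ Subtype.val_injective]
    congr 1
    ext P
    constructor
    · rintro ⟨Q, hQ, rfl⟩
      exact ⟨⟨Q.2.1, Q.2.2, hQ.1⟩, hQ.2⟩
    · rintro ⟨hP, hPf⟩
      exact ⟨⟨P, hP.1, hP.2.1⟩, ⟨hP.2.2, hPf⟩, rfl⟩
  rw [h0] at h1
  have h2' := abs_le.1 h1
  have h3' := divisor_bound (three_le_card h2) N
  have h4 : (3 * ∑ d ∈ N.properDivisors, (Nat.card k : ℤ) ^ d + 1 : ℤ) ≤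
      6 * (Nat.card k : ℤ) ^ (N / 2) := by
    exact_mod_cast h3'
  constructor
  · have h5 : ((Nat.card k ^ N : ℕ) : ℤ) ≤
        ((3 * (N * {P ∈ TD.irr k N | Irreducible (P.comp f)}.ncard) +
          6 * Nat.card k ^ (N / 2) : ℕ) : ℤ) := by
      push_cast
      push_cast at h2'
      linarith [h2'.1]
    exact_mod_cast h5
  · have h5 : ((3 * (N * {P ∈ TD.irr k N | Irreducible (P.comp f)}.ncard) : ℕ) : ℤ) ≤
        ((Nat.card k ^ N + 6 * Nat.card k ^ (N / 2) : ℕ) : ℤ) := by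
      push_cast
      push_cast at h2'
      linarith [h2'.2]
    exact_mod_cast h5

end count

end Pool.Agent.X261.TS
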