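import Pool.Agent.X261.TS.Main
import Pool.Agent.Y179.T7.Smooth
import Pool.Agent.Y3.T7.Irr

/-!
The families.
-/

set_option autoImplicit false
set_option linter.all false

open Polynomial IsDedekindDomain WithZero
open scoped nonZeroDivisors Classical

namespace Pool.Agent.X261.TS

open Pool.Agent.TH115.GD (IsTower)
open Pool.Agent.Y160
open Pool.Agent.Y160.SE (SmoothC)
open Pool.Agent.Y160.SL (Concl IsTowerCurve)
open Pool.Agent.Y160.FT (Pres)
open Pool.Agent.Y160.T7

section line

variable {k : Type} [Field k]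

/-- The polynomial `f(x) - t`. -/
noncomputable def graph (f0 : k[X]) : k[X][X] := f0.map C - C X

theorem graph_eq (f0 : k[X]) : graph f0 =
    C (C (-1)) * Bivariate.swap ((X : k[X][X]).comp (C (C 1) * X + C (-f0))) := by
  unfold graph
  rw [X_comp, map_add, map_mul, Bivariate.swap_C_C, Bivariate.swap_Y]
  have h1 : Bivariate.swap (C (-f0) : k[X][X]) = (-f0).map C := Bivariate.swap_C (-f0)
  rw [h1, Polynomial.map_neg, C_neg, C_neg, C_1, C_1]
  ring

theorem tower_graph (p : ℕ) (f0 : k[X]) : IsTowerCurve p (graph f0) := by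
  rw [graph_eq]
  exact (IsTowerCurve.line.shear X 1 (-f0) one_ne_zero).swap.unit _ (-1) (neg_ne_zero.2 one_ne_zero)

theorem pres_graph (f0 : k[X]) : Pres (f0 : k[X]) (X : k[X]) (graph f0) := by
  have h1 := pres_unit (pres_swap' (pres_shear (pres_line (k := k)) (one_ne_zero (α := k)) (-f0)))
    (c := (-1 : k)) (neg_ne_zero.2 one_ne_zero)
  rw [← graph_eq] at h1
  have e : eval₂ ((aeval (X : k[X]) : k[X] →ₐ[k] k[X]) : k[X] →+* k[X]) (0 : k[X])
      (C (C (1 : k)⁻¹) * (X - C (-f0))) = f0 := by
    rw [eval₂_mul, eval₂_sub, eval₂_X, eval₂_C, eval₂_C]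
    show aeval (X : k[X]) (C (1 : k)⁻¹) * (0 - aeval (X : k[X]) (-f0)) = f0
    rw [inv_one, C_1, map_one, aeval_X_left_apply]
    ring
  rw [e] at h1
  exact h1

theorem monic_graph {f0 : k[X]} (hm : f0.Monic) (hn : 0 < f0.natDegree) : (graph f0).Monic := by
  have h1 : (f0.map C : k[X][X]).Monic := hm.map _
  apply h1.sub_of_left
  rw [degree_map_eq_of_injective C_injective]
  exact lt_of_le_of_lt degree_C_le (natDegree_pos_iff_degree_pos.1 hn)

theorem natDegree_graph (f0 : k[X]) : (graph f0).natDegree = f0.natDegree := by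
  unfold graph
  rw [natDegree_sub_C, natDegree_map_eq_of_injective C_injective]

end line

section fam

variable {k k' K F : Type} [Field k] [Field k'] [Algebra k k'] [Field K] [Algebra k[X] K]
  [Field F] [Algebra k'[X] F] [IsFractionRing k'[X] F] [Algebra K F] [IsFractionRing k[X] K]

theorem irrF (hT : IsTower k k' K F) {p : ℕ} (hp : p.Prime) {f : k[X][X]} (hf : IsTowerCurve p f)
    (hmon : f.Monic) : Irreducible ((f.map (algebraMap k[X] K)).map (algebraMap K F)) := by
  have e : (f.map (algebraMap k[X] K)).map (algebraMap K F) =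
      (f.map (mapRingHom (algebraMap k k'))).map (algebraMap k'[X] F) := by
    rw [Polynomial.map_map, Polynomial.map_map]
    congr 1
    apply RingHom.ext
    intro y
    exact hT.map y
  rw [e]
  exact Pool.Agent.Y3.T7.st_irr p k k' F f hp hf hmon

/-- The twists of the tower curves. -/
theorem towerS (hT : IsTower k k' K F) {p s : ℕ} (hp : p.Prime) {ζ : k}
    (hζ : IsPrimitiveRoot ζ (p ^ (s + 1))) {f : k[X][X]} (hf : IsTowerCurve p f)
    (hmon : f.Monic) (hcop : p.Coprime f.natDegree)
    (hsep : (f.map (algebraMap k[X] K)).Separable) {D : k[X]} (hD : D ≠ 0)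
    (hin : ∀ P : k[X], Irreducible P → P ∣ D → Irreducible (f.map (AdjoinRoot.mk P))) :
    Concl p (p ^ (s + 1)) 0 k k' F ((f.scaleRoots D).map (algebraMap k[X] K)) := by
  have hζ' : IsPrimitiveRoot (ζ ^ (p ^ s)) p :=
    hζ.pow (pow_pos hp.pos _) (by rw [pow_succ])
  have hn : 0 < f.natDegree := by
    rcases Nat.eq_zero_or_pos f.natDegree with h0 | h0
    · rw [h0, Nat.coprime_zero_right] at hcop
      exact absurd hcop hp.one_lt.ne'
    · exact h0
  refine conclS hT hp rfl hζ hmon hcop hD ?_ hsep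
    (Pool.Agent.Y179.T7.st_smooth p k f hp (Pool.Agent.Y160.FT.p_ne hp rfl hζ) hf) (irrF hT hp hf hmon)
  obtain ⟨R, i1, i2, i3, t, x, h, hR⟩ := tower_prop hp hζ' hf
  exact ⟨R, i1, i2, i3, t, x, h, hR, fun P hP hPD => prime_of_pres h hn hP (hin P hP hPD)⟩

/-- The twists of `y ^ q = f(x) - t`. -/
theorem lineS (hT : IsTower k k' K F) {p s : ℕ} (hp : p.Prime) {ζ : k}
    (hζ : IsPrimitiveRoot ζ (p ^ (s + 1))) {f0 : k[X]} (hmon : f0.Monic)
    (hcop : p.Coprime f0.natDegree) (hder : derivative f0 ≠ 0) {D : k[X]} (hD : D ≠ 0)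
    (hin : ∀ P : k[X], Irreducible P → P ∣ D → Irreducible (P.comp f0)) :
    Concl p (p ^ (s + 1)) 0 k k' F (((graph f0).scaleRoots D).map (algebraMap k[X] K)) := by
  have hn : 0 < f0.natDegree := by
    rcases Nat.eq_zero_or_pos f0.natDegree with h0 | h0
    · rw [h0, Nat.coprime_zero_right] at hcop
      exact absurd hcop hp.one_lt.ne'
    · exact h0
  have hmG := monic_graph hmon hn
  have hirrF := irrF hT hp (tower_graph p f0) hmG
  have hirrK : Irreducible ((graph f0).map (algebraMap k[X] K)) :=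
    Polynomial.Monic.irreducible_of_irreducible_map (algebraMap K F) _ (hmG.map _) hirrF
  have hsep : ((graph f0).map (algebraMap k[X] K)).Separable := by
    rw [separable_iff_derivative_ne_zero hirrK, derivative_map]
    unfold graph
    rw [derivative_sub, derivative_C, sub_zero, derivative_map, Polynomial.map_map]
    rw [Polynomial.map_ne_zero_iff]
    · exact hder
    · exact (IsFractionRing.injective k[X] K).comp C_injective
  refine conclS hT hp rfl hζ hmG (by rwa [natDegree_graph]) hD ?_ hsep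
    (Pool.Agent.Y179.T7.st_smooth p k _ hp (Pool.Agent.Y160.FT.p_ne hp rfl hζ) (tower_graph p f0)) hirrF
  refine ⟨k[X], inferInstance, inferInstance, inferInstance, f0, X, pres_graph f0, propT_line hp,
    fun P hP hPD => ?_⟩
  exact (hin P hP hPD).prime

end fam

end Pool.Agent.X261.TS
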