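import Pool.Agent.X261.TS.Fam

/-!
The conclusions over `K = k(t)`.
-/

set_option autoImplicit false
set_option linter.all false

open Polynomial IsDedekindDomain WithZero
open scoped nonZeroDivisors Classical

namespace Pool.Agent.X261.TS

open Pool.Agent.TH115.GD (IsTower Sep Comp)
open Pool.Agent.Y160
open Pool.Agent.Y160.SL (Concl IsTowerCurve IsCoc IsCobOf LocTriv ShaTriv Jac)

section tower

variable (k K : Type) [Field k] [Field K] [Algebra k[X] K] [IsFractionRing k[X] K]

theorem exists_tower : ∃ (k' F : Type) (_ : Field k') (_ : Algebra k k') (_ : Field F)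
    (_ : Algebra k'[X] F) (_ : IsFractionRing k'[X] F) (_ : Algebra K F), IsTower k k' K F := by
  let k' := SeparableClosure k
  let F := FractionRing k'[X]
  have hinj : Function.Injective ((algebraMap k'[X] F).comp (mapRingHom (algebraMap k k'))) :=
    (IsFractionRing.injective k'[X] F).comp (Polynomial.map_injective _ (algebraMap k k').injective)
  let ψ : K →+* F := IsFractionRing.lift hinj
  refine ⟨k', F, inferInstance, inferInstance, inferInstance, inferInstance, inferInstance,
    ψ.toAlgebra, ?_⟩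
  letI : Algebra K F := ψ.toAlgebra
  exact ⟨inferInstance, inferInstance, fun p => IsFractionRing.lift_algebraMap hinj p⟩

end tower

section res

variable {k K : Type} [Field k] [Field K] [Algebra k[X] K] [IsFractionRing k[X] K]

theorem divisible {p q : ℕ} {F : K[X]}
    (h : ∃ D : Fin 0 × Fin (q - 1) → Jac q F K, SL.IsBasisAt p D) (n : ℕ) (x : Jac q F K) :
    ∃ y : Jac q F K, x = p ^ n • y := by
  obtain ⟨D, -, hD⟩ := h
  obtain ⟨y, hy⟩ := hD n x
  refine ⟨y, ?_⟩
  have e : Set.range D = ∅ := by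
    haveI : IsEmpty (Fin 0 × Fin (q - 1)) := ⟨fun i => i.1.elim0⟩
    exact Set.range_eq_empty D
  rw [e, AddSubgroup.closure_empty, AddSubgroup.mem_bot, sub_eq_zero] at hy
  exact hy

/-- The twists of `y ^ q = f(x) - t`, over `K`. -/
theorem line_res {p s : ℕ} (hp : p.Prime) {ζ : k} (hζ : IsPrimitiveRoot ζ (p ^ (s + 1)))
    {f0 : k[X]} (hmon : f0.Monic) (hcop : p.Coprime f0.natDegree) (hder : derivative f0 ≠ 0)
    {D : k[X]} (hD : D ≠ 0) (hin : ∀ P : k[X], Irreducible P → P ∣ D → Irreducible (P.comp f0)) :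
    ShaTriv p (p ^ (s + 1)) k[X] (((graph f0).scaleRoots D).map (algebraMap k[X] K)) ∧
      ∀ (n : ℕ) (x : Jac (p ^ (s + 1)) (((graph f0).scaleRoots D).map (algebraMap k[X] K)) K),
        ∃ y, x = p ^ n • y := by
  obtain ⟨k', F, _, _, _, _, _, _, hT⟩ := exists_tower k K
  have h := lineS hT hp hζ hmon hcop hder hD hin
  exact ⟨h.sha, divisible h.basis⟩

theorem prod_inert {f0 : k[X]} {S : Finset k} (hS : ∀ c ∈ S, Irreducible (f0 - C c)) {P : k[X]}
    (hP : Irreducible P) (hd : P ∣ ∏ c ∈ S, (X - C c)) : Irreducible (P.comp f0) := by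
  obtain ⟨c, hc, hPc⟩ := (Prime.dvd_finsetProd_iff hP.prime _).1 hd
  have h1 : Associated P (X - C c) := hP.associated_of_dvd (irreducible_X_sub_C c) hPc
  have h2 : Associated (P.comp f0) ((X - C c).comp f0) := by
    obtain ⟨u, hu⟩ := h1
    refine ⟨Units.map (compRingHom f0 : k[X] →* k[X]) u, ?_⟩
    show P.comp f0 * (u : k[X]).comp f0 = _
    rw [← mul_comp, hu]
  rw [h2.irreducible_iff, sub_comp, X_comp, C_comp]
  exact hS c hc

end res

end Pool.Agent.X261.TS
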