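import Pool.Agent.X261.TS.Par

/-!
The twisted polynomial.
-/

set_option autoImplicit false
set_option linter.all false

open Polynomial

namespace Pool.Agent.X261.TS

section field

variable {K : Type} [Field K]

theorem scale_back {g : K[X]} {d : K} (hd : d ≠ 0) : (g.scaleRoots d).scaleRoots d⁻¹ = g := by
  rw [← scaleRoots_mul, mul_inv_cancel₀ hd, scaleRoots_one]

theorem irr_scale {g : K[X]} {d : K} (hd : d ≠ 0) (hg : Irreducible g) :
    Irreducible (g.scaleRoots d) := by
  have hnu : ∀ h : K[X], IsUnit (h.scaleRoots d⁻¹) → IsUnit h := by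
    intro h hu
    have h0 : h ≠ 0 := by
      rintro rfl
      rw [zero_scaleRoots] at hu
      exact not_isUnit_zero hu
    rw [Polynomial.isUnit_iff_degree_eq_zero] at hu ⊢
    rwa [degree_scaleRoots] at hu
  refine ⟨fun hu => hg.not_isUnit ?_, fun a b hab => ?_⟩
  · rw [Polynomial.isUnit_iff_degree_eq_zero] at hu ⊢
    rwa [degree_scaleRoots] at hu
  · have h1 : g = a.scaleRoots d⁻¹ * b.scaleRoots d⁻¹ := by
      rw [← mul_scaleRoots_of_noZeroDivisors, ← hab, scale_back hd]
    rcases hg.isUnit_or_isUnit h1 with h | h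
    · exact Or.inl (hnu a h)
    · exact Or.inr (hnu b h)

theorem derivative_scale (g : K[X]) (d : K) : derivative (g.scaleRoots d) =
    C (d ^ (g.natDegree - 1 - (derivative g).natDegree)) * (derivative g).scaleRoots d := by
  ext i
  rw [coeff_derivative, coeff_scaleRoots, coeff_C_mul, coeff_scaleRoots, coeff_derivative]
  by_cases h : g.coeff (i + 1) * (i + 1 : K) = 0
  · rw [h, zero_mul, mul_zero, mul_right_comm, h, zero_mul]
  · have h1 : i ≤ (derivative g).natDegree := by
      apply le_natDegree_of_ne_zero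
      rw [coeff_derivative]
      exact h
    have h2 := natDegree_derivative_le g
    have e : g.natDegree - (i + 1) =
        (g.natDegree - 1 - (derivative g).natDegree) + ((derivative g).natDegree - i) := by omega
    rw [e, pow_add]
    ring

theorem sep_scale {g : K[X]} {d : K} (hd : d ≠ 0) (hg : g.Separable) :
    (g.scaleRoots d).Separable := by
  unfold Polynomial.Separable at hg ⊢
  rw [derivative_scale]
  exact (isCoprime_mul_unit_left_right (isUnit_C.2 (isUnit_iff_ne_zero.2 (pow_ne_zero _ hd))) _ _).2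
    (isCoprime_scaleRoots g _ d (isUnit_iff_ne_zero.2 hd) hg)

end field

section smooth

variable {k : Type} [Field k]

/-- The derivative with respect to the inner variable. -/
noncomputable def dtt (f : k[X][X]) : k[X][X] := f.sum fun i a => C (derivative a) * X ^ i

theorem coeff_dtt (f : k[X][X]) (n : ℕ) : (dtt f).coeff n = derivative (f.coeff n) :=
  Pool.Agent.Y228.SE.coeff_dt f n

/-- the substitution of `D x` for `x` -/
theorem comp_inj {D : k[X]} (hD : D ≠ 0) {g h : k[X][X]}
    (e : g.comp (C D * X) = h.comp (C D * X)) : g = h := by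
  ext1 n
  have h1 := congrArg (fun p => coeff p n) e
  simp only [comp_C_mul_X_coeff] at h1
  exact mul_right_cancel₀ (pow_ne_zero n hD) h1

/-- every polynomial is of this form, after the multiplication with a power of `D` -/
theorem exists_comp (D : k[X]) (A : k[X][X]) :
    ∃ N : ℕ, ∀ M : ℕ, N ≤ M → ∃ A' : k[X][X], C D ^ M * A = A'.comp (C D * X) := by
  induction A using Polynomial.induction_on' with
  | add p q hp hq =>
    obtain ⟨N1, h1⟩ := hp
    obtain ⟨N2, h2⟩ := hq
    refine ⟨max N1 N2, fun M hM => ?_⟩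
    obtain ⟨A1, e1⟩ := h1 M (le_trans (le_max_left _ _) hM)
    obtain ⟨A2, e2⟩ := h2 M (le_trans (le_max_right _ _) hM)
    exact ⟨A1 + A2, by rw [mul_add, e1, e2, add_comp]⟩
  | monomial n a =>
    refine ⟨n, fun M hM => ⟨C (a * D ^ (M - n)) * X ^ n, ?_⟩⟩
    rw [mul_comp, C_comp, pow_comp, X_comp, ← C_mul_X_pow_eq_monomial, mul_pow]
    have e : (C D : k[X][X]) ^ M = C D ^ (M - n) * C D ^ n := by
      rw [← pow_add, Nat.sub_add_cancel hM]
    rw [e, C_mul, C_pow]
    ring

theorem scale_comp {f : k[X][X]} (D : k[X]) :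
    (f.scaleRoots D).comp (C D * X) = C D ^ f.natDegree * f := by
  ext1 i
  rw [comp_C_mul_X_coeff, coeff_scaleRoots, ← C_pow, coeff_C_mul]
  by_cases h : f.coeff i = 0
  · rw [h, zero_mul, zero_mul, mul_zero]
  · have h1 := le_natDegree_of_ne_zero h
    have e : D ^ f.natDegree = D ^ (f.natDegree - i) * D ^ i := by
      rw [← pow_add, Nat.sub_add_cancel h1]
    rw [e]
    ring

theorem dx_comp {f : k[X][X]} (D : k[X]) :
    C D * (derivative (f.scaleRoots D)).comp (C D * X) = C D ^ f.natDegree * derivative f := by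
  ext1 i
  rw [coeff_C_mul, comp_C_mul_X_coeff, coeff_derivative, coeff_scaleRoots, ← C_pow, coeff_C_mul,
    coeff_derivative]
  by_cases h : f.coeff (i + 1) = 0
  · rw [h, zero_mul, zero_mul, zero_mul, mul_zero, mul_zero]
  · have h1 := le_natDegree_of_ne_zero h
    have e : D ^ f.natDegree = D ^ (f.natDegree - (i + 1)) * D ^ i * D := by
      rw [mul_assoc, ← pow_succ, ← pow_add, Nat.sub_add_cancel h1]
    rw [e]
    ring

theorem dt_comp {f : k[X][X]} (D : k[X]) :
    C D * (dtt (f.scaleRoots D)).comp (C D * X) = C D ^ (f.natDegree + 1) * dtt f +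
      C (derivative D) * C D ^ f.natDegree * (C (f.natDegree : k[X]) * f - X * derivative f) := by
  ext1 i
  rw [coeff_C_mul, comp_C_mul_X_coeff, coeff_dtt, coeff_scaleRoots, coeff_add, ← C_pow, ← C_pow,
    coeff_C_mul, coeff_dtt, ← C_mul, coeff_C_mul, coeff_sub, coeff_C_mul, derivative_mul]
  have hX : (X * derivative f).coeff i = (i : k[X]) * f.coeff i := by
    cases i with
    | zero => rw [coeff_X_mul_zero, Nat.cast_zero, zero_mul]
    | succ i =>
      rw [coeff_X_mul, coeff_derivative]
      push_cast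
      ring
  rw [hX]
  by_cases h : f.coeff i = 0
  · rw [h, derivative_zero]
    ring
  · have h1 := le_natDegree_of_ne_zero h
    obtain ⟨j, hj⟩ : ∃ j, f.natDegree = i + j := ⟨_, (Nat.add_sub_of_le h1).symm⟩
    have hj2 : f.natDegree - i = j := by omega
    rw [hj2, hj, derivative_pow]
    cases j with
    | zero =>
      push_cast
      rw [C_0]
      ring
    | succ j =>
      rw [Nat.add_sub_cancel]
      push_cast
      rw [map_add, map_natCast, map_one]
      ring

/-- The twisted curve is smooth away from `D = 0`. -/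
theorem smooth_scale {f : k[X][X]} (hf : Pool.Agent.Y160.SE.SmoothC f) {D : k[X]} (hD : D ≠ 0) :
    ∃ m : ℕ, SmS (f.scaleRoots D) D m := by
  unfold Pool.Agent.Y160.SE.SmoothC at hf
  have h1 : (1 : k[X][X]) ∈ (Ideal.span {f, derivative f, dtt f} : Ideal k[X][X]) := by
    have h2 : (Ideal.span {f, derivative f, dtt f} : Ideal k[X][X]) = ⊤ := hf
    rw [h2]
    trivial
  rw [Ideal.mem_span_insert] at h1
  obtain ⟨A, w, hw, e1⟩ := h1
  rw [Ideal.mem_span_pair] at hw
  obtain ⟨B, E, hBE⟩ := hw
  rw [← hBE] at e1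
  set F := f.scaleRoots D with hF
  set n := f.natDegree with hn
  have c1 := scale_comp (f := f) D
  have c2 := dx_comp (f := f) D
  have c3 := dt_comp (f := f) D
  rw [← hF, ← hn] at c1 c2 c3
  set A1 : k[X][X] := A * C D - E * C (derivative D) * C (n : k[X]) with hA1
  set B1 : k[X][X] := (B * C D + E * C (derivative D) * X) * C D with hB1
  set E1 : k[X][X] := E * C D with hE1
  have key : C D ^ (n + 1) = A1 * F.comp (C D * X) + B1 * (derivative F).comp (C D * X) +
      E1 * (dtt F).comp (C D * X) := by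
    have e2 : C D ^ (n + 1) * dtt f = C D * (dtt F).comp (C D * X) -
        C (derivative D) * C D ^ n * (C (n : k[X]) * f - X * derivative f) := by
      rw [c3]
      ring
    calc C D ^ (n + 1) = C D ^ (n + 1) * (A * f + (B * derivative f + E * dtt f)) := by
          rw [← e1, mul_one]
      _ = A * C D * (C D ^ n * f) + B * C D * (C D ^ n * derivative f) +
          E * (C D ^ (n + 1) * dtt f) := by ring
      _ = _ := by
          rw [e2, hA1, hB1, hE1, ← c1]
          have e4 : C (derivative D) * C D ^ n * (C (n : k[X]) * f - X * derivative f) =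
              C (derivative D) * (C (n : k[X]) * (C D ^ n * f) - X * (C D ^ n * derivative f)) := by
            ring
          rw [e4, ← c1, ← c2]
          ring
  obtain ⟨N1, h1⟩ := exists_comp D A1
  obtain ⟨N2, h2⟩ := exists_comp D B1
  obtain ⟨N3, h3⟩ := exists_comp D E1
  set M := max N1 (max N2 N3) with hM
  obtain ⟨A2, hA2⟩ := h1 M (le_max_left _ _)
  obtain ⟨B2, hB2⟩ := h2 M ((le_max_left _ _).trans (le_max_right _ _))
  obtain ⟨E2, hE2⟩ := h3 M ((le_max_right _ _).trans (le_max_right _ _))
  refine ⟨M + (n + 1), ?_⟩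
  have hfin : (C D : k[X][X]) ^ (M + (n + 1)) = A2 * F + B2 * derivative F + E2 * dtt F := by
    apply comp_inj hD
    rw [add_comp, add_comp, mul_comp, mul_comp, mul_comp, ← hA2, ← hB2, ← hE2, pow_comp, C_comp,
      pow_add, key]
    ring
  unfold SmS
  rw [hfin]
  refine Ideal.add_mem _ (Ideal.add_mem _ ?_ ?_) ?_
  · exact Ideal.mul_mem_left _ _ (Ideal.subset_span (Or.inl rfl))
  · exact Ideal.mul_mem_left _ _ (Ideal.subset_span (Or.inr (Or.inl rfl)))
  · exact Ideal.mul_mem_left _ _ (Ideal.subset_span (Or.inr (Or.inr rfl)))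

end smooth

end Pool.Agent.X261.TS
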