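import Pool.Agent.X261.TS.CritT
import Pool.Agent.X261.TS.Tw
import Pool.Agent.Y160.T7.Main

/-!
Functions whose divisor is divisible by `q` away from inert primes.
-/

set_option autoImplicit false
set_option linter.all false

open Polynomial IsDedekindDomain WithZero
open scoped nonZeroDivisors Classical

namespace Pool.Agent.X261.TS

open Pool.Agent.Y160.SE (IsPw)
open Pool.Agent.Y160.FT
open Pool.Agent.Y160.T7
open Pool.Agent.Y228.FT

section adjust

variable {k R N : Type} [Field k] [CommRing R] [IsDedekindDomain R] [Field N] [Algebra R N]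
  [IsFractionRing R N] [Algebra k[X] R]

/-- the valuation of a nonzero element is an integer -/
theorem exists_exp {γ : WithZero (Multiplicative ℤ)} (h : γ ≠ 0) : ∃ a : ℤ, γ = exp a :=
  ⟨γ.log, (exp_log h).symm⟩

theorem exists_shift {q : ℕ} (hq : 0 < q) (a : ℤ) : ∃ n : ℕ, IsPw q (exp (a - n)) := by
  have hq' : (0 : ℤ) < q := by exact_mod_cast hq
  refine ⟨(a % q).toNat, ⟨exp (a / q), ?_⟩⟩
  rw [← exp_nsmul]
  congr 1
  have h1 := Int.emod_nonneg a hq'.ne'
  have h2 := Int.mul_ediv_add_emod a q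
  rw [Int.toNat_of_nonneg h1, nsmul_eq_mul]
  linarith

theorem adjust {q : ℕ} (hq : 0 < q) (D : k[X]) :
    D ≠ 0 → (∀ P : k[X], Irreducible P → P ∣ D → Prime (algebraMap k[X] R P)) →
    ∀ z : N, z ≠ 0 → (∀ v : HeightOneSpectrum R, algebraMap k[X] R D ∉ v.asIdeal →
      IsPw q (v.valuation N z)) →
    ∃ h : k[X], h ≠ 0 ∧ ∀ v : HeightOneSpectrum R,
      IsPw q (v.valuation N (z * algebraMap R N (algebraMap k[X] R h))) := by
  induction D using WfDvdMonoid.induction_on_irreducible with
  | zero => exact fun h => absurd rfl h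
  | unit u hu =>
    intro _ _ z hz hv
    refine ⟨1, one_ne_zero, fun v => ?_⟩
    rw [map_one, map_one, mul_one]
    refine hv v fun h => ?_
    exact v.isPrime.ne_top (Ideal.eq_top_of_isUnit_mem _ h (hu.map _))
  | mul D P hD0 hP ih =>
    intro hPD hpr z hz hv
    have hπ : Prime (algebraMap k[X] R P) := hpr P hP (Dvd.intro _ rfl)
    obtain ⟨a, ha⟩ := exists_exp (γ := (vpr hπ).valuation N z)
      ((Valuation.ne_zero_iff _).2 hz)
    obtain ⟨n, hn⟩ := exists_shift hq a
    have hπN : algebraMap R N (algebraMap k[X] R P) ≠ 0 := fun h0 =>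
      hπ.ne_zero (IsFractionRing.injective R N (by rw [h0, map_zero]))
    have hz1 : z * algebraMap R N (algebraMap k[X] R P) ^ n ≠ 0 := mul_ne_zero hz (pow_ne_zero n hπN)
    obtain ⟨h, hh, hv1⟩ := ih hD0 (fun Q hQ hQD => hpr Q hQ (hQD.mul_left P))
      (z * algebraMap R N (algebraMap k[X] R P) ^ n) hz1 (by
        intro v hvD
        rw [map_mul, map_pow, HeightOneSpectrum.valuation_of_algebraMap]
        by_cases h1 : v.intValuation (algebraMap k[X] R P) = 1
        · rw [h1, one_pow, mul_one]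
          refine hv v fun h2 => ?_
          rw [map_mul] at h2
          rcases v.isPrime.mem_or_mem h2 with h3 | h3
          · exact ((v.intValuation_lt_one_iff_mem _).2 h3).ne h1
          · exact hvD h3
        · rw [eq_vpr hπ v h1, vpr_self, ha, ← exp_nsmul, ← exp_add]
          have e : a + n • (-1 : ℤ) = a - n := by
            rw [nsmul_eq_mul]
            ring
          rw [e]
          exact hn)
    refine ⟨P ^ n * h, mul_ne_zero (pow_ne_zero n hP.ne_zero) hh, fun v => ?_⟩
    have e : z * algebraMap R N (algebraMap k[X] R (P ^ n * h)) =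
        z * algebraMap R N (algebraMap k[X] R P) ^ n * algebraMap R N (algebraMap k[X] R h) := by
      rw [map_mul, map_mul, map_pow, map_pow, mul_assoc]
    rw [e]
    exact hv1 v

end adjust

section solve

variable {k K R N : Type} [Field k] [CommRing R] [IsDedekindDomain R] [Field N] [Algebra R N]
  [IsFractionRing R N] [Algebra k[X] R] [Field K] [Algebra k[X] K] [IsFractionRing k[X] K]
  [Algebra K N] [Algebra k[X] N] [IsScalarTower k[X] K N] [IsScalarTower k[X] R N]

/-- An element with valuations divisible by `q` away from inert primes, whose norm is a `q`-th power,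
is a `q`-th power. -/
theorem solve [FiniteDimensional K N] {q : ℕ} (hq : 1 < q) (hcop : (Module.finrank K N).Coprime q)
    {D : k[X]} (hD : D ≠ 0)
    (hpr : ∀ P : k[X], Irreducible P → P ∣ D → Prime (algebraMap k[X] R P))
    (hR : ∀ z : N, z ≠ 0 → (∀ v : HeightOneSpectrum R, IsPw q (v.valuation N z)) →
      ∃ (u : k) (g0 : N), u ≠ 0 ∧ g0 ≠ 0 ∧ z = algebraMap k[X] N (C u) * g0 ^ q)
    {z : N} (hz : z ≠ 0) (hv : ∀ v : HeightOneSpectrum R, algebraMap k[X] R D ∉ v.asIdeal →
      IsPw q (v.valuation N z)) (hn : ∃ y : K, Algebra.norm K z = y ^ q) :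
    ∃ g : N, g ≠ 0 ∧ z = g ^ q := by
  obtain ⟨h, hh, hv1⟩ := adjust (zero_lt_one.trans hq) D hD hpr z hz hv
  have hinjK := IsFractionRing.injective k[X] K
  have hhK : algebraMap k[X] K h ≠ 0 := fun h0 => hh (hinjK (by rw [h0, map_zero]))
  have e0 : algebraMap R N (algebraMap k[X] R h) = algebraMap K N (algebraMap k[X] K h) := by
    rw [← IsScalarTower.algebraMap_apply, ← IsScalarTower.algebraMap_apply]
  rw [e0] at hv1
  have hhN : algebraMap K N (algebraMap k[X] K h) ≠ 0 := (_root_.map_ne_zero _).2 hhK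
  obtain ⟨u, w, hu, hw, e1⟩ := hR _ (mul_ne_zero hz hhN) hv1
  have huK : algebraMap k[X] K (C u) ≠ 0 := fun h0 => hu (C_eq_zero.1 (hinjK (by rw [h0, map_zero])))
  rw [IsScalarTower.algebraMap_apply k[X] K N] at e1
  obtain ⟨y, hy⟩ := hn
  have hy0 : y ≠ 0 := by
    rintro rfl
    rw [zero_pow (by omega)] at hy
    exact hz (Algebra.norm_eq_zero_iff.1 hy)
  set n := Module.finrank K N with hnn
  have e2 := congrArg (Algebra.norm K) e1
  rw [map_mul, map_mul, Algebra.norm_algebraMap, Algebra.norm_algebraMap, map_pow, hy, ← hnn] at e2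
  set s0 : K := algebraMap k[X] K h / algebraMap k[X] K (C u) with hs0
  have hs0' : s0 ≠ 0 := div_ne_zero hhK huK
  have e3 : s0 ^ n = (Algebra.norm K w / y) ^ q := by
    rw [hs0, div_pow, div_pow, div_eq_div_iff (pow_ne_zero _ huK) (pow_ne_zero _ hy0)]
    linear_combination e2
  obtain ⟨a, -, ha⟩ := Nat.exists_mul_mod_eq_one_of_coprime hcop hq
  obtain ⟨b, hb⟩ : ∃ b : ℕ, n * a = q * b + 1 := by
    refine ⟨n * a / q, ?_⟩
    have := Nat.div_add_mod (n * a) q
    rw [ha] at this
    exact this.symm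
  set s : K := (Algebra.norm K w / y) ^ a / s0 ^ b with hs
  have e4 : s0 = s ^ q := by
    rw [hs, div_pow, ← pow_mul, mul_comm a q, pow_mul, ← e3, ← pow_mul, hb, ← pow_mul, mul_comm b q,
      pow_succ, mul_div_cancel_left₀ _ (pow_ne_zero _ hs0')]
  have hs' : s ≠ 0 := by
    intro h0
    rw [h0, zero_pow (by omega)] at e4
    exact hs0' e4
  have hsN : algebraMap K N s ≠ 0 := (_root_.map_ne_zero _).2 hs'
  refine ⟨w / algebraMap K N s, div_ne_zero hw hsN, ?_⟩
  have e5 : algebraMap k[X] K h = algebraMap k[X] K (C u) * s ^ q := by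
    rw [← e4, hs0]
    field_simp
  rw [div_pow, eq_div_iff (pow_ne_zero _ hsN)]
  have huN : algebraMap K N (algebraMap k[X] K (C u)) ≠ 0 := (_root_.map_ne_zero _).2 huK
  apply mul_left_cancel₀ huN
  rw [← e1, e5, map_mul, map_pow]
  ring

end solve

end Pool.Agent.X261.TS
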