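import Pool.Agent.X261.TS.Adj

/-!
The function field of the twisted curve.
-/

set_option autoImplicit false
set_option linter.all false

open Polynomial IsDedekindDomain WithZero
open scoped nonZeroDivisors Classical

namespace Pool.Agent.X261.TS

open Pool.Agent.Y160.SE (IsPw)
open Pool.Agent.Y160.FT (Pres)
open Pool.Agent.Y160.T7

section pres

variable {k R : Type} [Field k] [CommRing R] [Algebra k R] {t x : R} {f : k[X][X]}

theorem dvd_pres (h : Pres t x f) (P : k[X]) (p : k[X][X]) :
    aeval t P ∣ eval₂ ((aeval t : k[X] →ₐ[k] R) : k[X] →+* R) x p ↔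
      f.map (AdjoinRoot.mk P) ∣ p.map (AdjoinRoot.mk P) := by
  have hP0 : AdjoinRoot.mk P P = 0 := AdjoinRoot.mk_self
  constructor
  · rintro ⟨r, hr⟩
    obtain ⟨r', rfl⟩ := h.surj r
    have h1 : eval₂ ((aeval t : k[X] →ₐ[k] R) : k[X] →+* R) x (p - C P * r') = 0 := by
      rw [eval₂_sub, eval₂_mul, eval₂_C, hr]
      exact sub_self _
    obtain ⟨g, hg⟩ := (h.ker _).1 h1
    refine ⟨g.map (AdjoinRoot.mk P), ?_⟩
    rw [← Polynomial.map_mul, ← hg, Polynomial.map_sub, Polynomial.map_mul, map_C, hP0, C_0,
      zero_mul, sub_zero]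
  · rintro ⟨g, hg⟩
    obtain ⟨g', rfl⟩ := Polynomial.map_surjective (AdjoinRoot.mk P) AdjoinRoot.mk_surjective g
    have h1 : C P ∣ p - f * g' := by
      rw [C_dvd_iff_dvd_coeff]
      intro i
      rw [← AdjoinRoot.mk_eq_zero, ← coeff_map, Polynomial.map_sub, Polynomial.map_mul, hg,
        sub_self, coeff_zero]
    obtain ⟨r, hr⟩ := h1
    have h2 : p = f * g' + C P * r := by rw [← hr]; ring
    refine ⟨eval₂ ((aeval t : k[X] →ₐ[k] R) : k[X] →+* R) x r, ?_⟩
    rw [h2, eval₂_add, eval₂_mul, eval₂_mul, (h.ker f).2 dvd_rfl, zero_mul, zero_add, eval₂_C]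
    rfl

/-- A prime `P` such that `f` is irreducible modulo `P` is a prime element. -/
theorem prime_of_pres (h : Pres t x f) (hn : 0 < f.natDegree) {P : k[X]}
    (hP : Irreducible P) (hin : Irreducible (f.map (AdjoinRoot.mk P))) : Prime (aeval t P) := by
  haveI : Fact (Irreducible P) := ⟨hP⟩
  refine ⟨?_, ?_, ?_⟩
  · intro h0
    have h1 : f ∣ C P := (h.ker (C P)).1 (by rw [eval₂_C]; exact h0)
    have h2 := natDegree_le_of_dvd h1 (C_ne_zero.2 hP.ne_zero)
    rw [natDegree_C] at h2
    omega
  · intro hu
    have h1 : aeval t P ∣ eval₂ ((aeval t : k[X] →ₐ[k] R) : k[X] →+* R) x 1 := by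
      rw [eval₂_one]
      exact hu.dvd
    have h2 := (dvd_pres h P 1).1 h1
    rw [Polynomial.map_one] at h2
    exact hin.not_isUnit (isUnit_of_dvd_one h2)
  · intro a b hab
    obtain ⟨a', rfl⟩ := h.surj a
    obtain ⟨b', rfl⟩ := h.surj b
    rw [← eval₂_mul, dvd_pres h, Polynomial.map_mul] at hab
    rw [dvd_pres h, dvd_pres h]
    exact hin.prime.dvd_or_dvd hab

end pres

section cont

variable {k K : Type} [Field k] [Field K] [Algebra k[X] K] [IsFractionRing k[X] K]

theorem contS {Goal : Prop} {p q s : ℕ} (hp : p.Prime) (hq : q = p ^ (s + 1)) {f : k[X][X]}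
    (hmon : f.Monic) (hcop : p.Coprime f.natDegree)
    (hirrK : Irreducible (f.map (algebraMap k[X] K))) {D : k[X]} (hD : D ≠ 0)
    (hR : ∃ (R : Type) (_ : CommRing R) (_ : IsDedekindDomain R) (_ : Algebra k R) (t x : R),
      Pres t x f ∧ PropT p k R ∧ ∀ P : k[X], Irreducible P → P ∣ D → Prime (aeval t P))
    (cont : ∀ (R N : Type) [CommRing R] [IsDedekindDomain R] [Field N] [Algebra K N]
      [Algebra k[X] N] [IsScalarTower k[X] K N] [Algebra R N] [IsFractionRing R N]
      [Algebra k[X] R] [IsScalarTower k[X] R N] [Algebra.IsIntegral k[X] R] (θ : N),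
      aeval θ ((f.scaleRoots D).map (algebraMap k[X] K)) = 0 →
      IntermediateField.adjoin K {θ} = ⊤ →
      (∀ z : N, z ≠ 0 → (∀ v : HeightOneSpectrum R, algebraMap k[X] R D ∉ v.asIdeal →
        IsPw q (v.valuation N z)) → (∃ y : K, Algebra.norm K z = y ^ q) →
        ∃ g : N, g ≠ 0 ∧ z = g ^ q) → Goal) :
    Goal := by
  obtain ⟨R, _, _, _, u, x, hP, hsel, hprime⟩ := hR
  have hsurj := hP.surj
  have hker := hP.ker
  have hn : f.natDegree ≠ 0 := by
    intro h0
    rw [h0, Nat.coprime_zero_right] at hcop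
    exact hp.one_lt.ne' hcop
  -- the algebra structures
  let φ : k[X] →+* R := ((aeval u : k[X] →ₐ[k] R) : k[X] →+* R)
  letI : Algebra k[X] R := φ.toAlgebra
  haveI : IsDomain R := inferInstance
  have hinjR : Function.Injective (algebraMap k[X] R) := by
    rw [injective_iff_map_eq_zero]
    intro y hy
    have h1 : eval₂ φ x (C y) = 0 := by rw [eval₂_C]; exact hy
    have h2 := (hker _).1 h1
    by_contra hy0
    have h3 := natDegree_le_of_dvd h2 (C_ne_zero.2 hy0)
    rw [natDegree_C] at h3
    exact hn (Nat.le_zero.1 h3)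
  have hkX : ∀ y : k[X], algebraMap k[X] (FractionRing R) y = algebraMap R (FractionRing R) (φ y) :=
    fun y => IsScalarTower.algebraMap_apply k[X] R (FractionRing R) y
  have hinjN : Function.Injective (algebraMap k[X] (FractionRing R)) := by
    intro y y' h
    rw [hkX, hkX] at h
    exact hinjR (IsFractionRing.injective R (FractionRing R) h)
  letI : Algebra K (FractionRing R) := (IsFractionRing.lift hinjN : K →+* FractionRing R).toAlgebra
  haveI : IsScalarTower k[X] K (FractionRing R) := IsScalarTower.of_algebraMap_eq fun y =>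
    (IsFractionRing.lift_algebraMap hinjN y).symm
  have hroot : eval₂ φ x f = 0 := (hker _).2 dvd_rfl
  haveI : Algebra.IsIntegral k[X] R := by
    refine ⟨fun z => ?_⟩
    obtain ⟨P, rfl⟩ := hsurj z
    have hx : IsIntegral k[X] x := ⟨f, hmon, hroot⟩
    have : eval₂ φ x P = aeval x P := rfl
    rw [this]
    exact adjoin_le_integralClosure hx (aeval_mem_adjoin_singleton k[X] x)
  let θ : FractionRing R := algebraMap R (FractionRing R) x
  have hθev : ∀ P : k[X][X], aeval θ (P.map (algebraMap k[X] K)) =
      algebraMap R (FractionRing R) (eval₂ φ x P) := by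
    intro P
    rw [aeval_map_algebraMap]
    have h1 : algebraMap k[X] (FractionRing R) = (algebraMap R (FractionRing R)).comp φ :=
      RingHom.ext hkX
    rw [aeval_def, h1]
    exact (hom_eval₂ P φ (algebraMap R (FractionRing R)) x).symm
  have hθ : aeval θ (f.map (algebraMap k[X] K)) = 0 := by
    rw [hθev, hroot, map_zero]
  have htop : IntermediateField.adjoin K {θ} = ⊤ := by
    rw [eq_top_iff]
    rintro z -
    have hR : ∀ r : R, algebraMap R (FractionRing R) r ∈ IntermediateField.adjoin K {θ} := by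
      intro r
      obtain ⟨P, rfl⟩ := hsurj r
      rw [← hθev]
      exact IntermediateField.algebra_adjoin_le_adjoin K {θ}
        (aeval_mem_adjoin_singleton K θ)
    obtain ⟨a, b, hb, rfl⟩ := IsFractionRing.div_surjective (A := R) z
    exact div_mem (hR a) (hR b)
  -- the degree
  have hθint : IsIntegral K θ := ⟨f.map (algebraMap k[X] K), hmon.map _, hθ⟩
  haveI : FiniteDimensional K (FractionRing R) := by
    have h1 : FiniteDimensional K (IntermediateField.adjoin K {θ}) :=
      IntermediateField.adjoin.finiteDimensional hθint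
    rw [htop] at h1
    exact LinearEquiv.finiteDimensional
      (IntermediateField.topEquiv (F := K) (E := FractionRing R)).toLinearEquiv
  have hrank : Module.finrank K (FractionRing R) = f.natDegree := by
    have h1 := IntermediateField.adjoin.finrank hθint
    rw [htop, IntermediateField.finrank_top'] at h1
    rw [h1, ← minpoly.eq_of_irreducible_of_monic hirrK hθ (hmon.map _), hmon.natDegree_map]
  have hq1 : 1 < q := by
    rw [hq]
    exact Nat.one_lt_pow (Nat.succ_ne_zero s) hp.one_lt
  -- the root of the twisted polynomial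
  have hDK : algebraMap k[X] K D ≠ 0 := fun h0 => hD (IsFractionRing.injective k[X] K
    (by rw [h0, map_zero]))
  have hscale : (f.scaleRoots D).map (algebraMap k[X] K) =
      (f.map (algebraMap k[X] K)).scaleRoots (algebraMap k[X] K D) :=
    map_scaleRoots f D (algebraMap k[X] K) (by
      rw [hmon.leadingCoeff, map_one]
      exact one_ne_zero)
  have hDN : algebraMap K (FractionRing R) (algebraMap k[X] K D) ≠ 0 :=
    (_root_.map_ne_zero _).2 hDK
  refine cont R (FractionRing R) (algebraMap K (FractionRing R) (algebraMap k[X] K D) * θ) ?_ ?_ ?_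
  · rw [hscale]
    exact scaleRoots_aeval_eq_zero hθ
  · rw [eq_top_iff, ← htop, IntermediateField.adjoin_simple_le_iff]
    have h1 := IntermediateField.mem_adjoin_simple_self K
      (algebraMap K (FractionRing R) (algebraMap k[X] K D) * θ)
    have h2 := mul_mem (inv_mem (IntermediateField.algebraMap_mem
      (IntermediateField.adjoin K {algebraMap K (FractionRing R) (algebraMap k[X] K D) * θ})
      (algebraMap k[X] K D))) h1
    rwa [inv_mul_cancel_left₀ hDN] at h2
  · intro z hz hv hnm
    refine solve (R := R) (K := K) hq1 ?_ hD ?_ ?_ hz hv hnm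
    · rw [hrank, hq]
      exact (Nat.Coprime.pow_left (s + 1) hcop).symm
    · intro P hPi hPD
      exact hprime P hPi hPD
    · intro z hz hv
      obtain ⟨c, w, hc, hw, e⟩ := propT_pow hp.ne_zero hsel (FractionRing R) (s + 1) z hz
        (by rw [← hq]; exact hv)
      refine ⟨c, w, hc, hw, ?_⟩
      rw [e, hkX, hq]
      congr 2
      show _ = aeval u (C c)
      rw [aeval_C]

end cont

end Pool.Agent.X261.TS
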