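import Pool.Agent.X261.TS.Par
import Pool.Agent.Y160.SH.CritH

/-!
The criterion, with the fields and rings as parameters.
-/

set_option autoImplicit false
set_option linter.all false

open Polynomial IsDedekindDomain WithZero
open scoped nonZeroDivisors Classical

namespace Pool.Agent.X261.TS

open Pool.Agent.Y160.SQ Pool.Agent.Y160.SH
open Pool.Agent.TH115.GD (incl rs ak Sep Comp CompInf IsTower rs_mul Preserves exists_conj lift_fix
  cont_rs exists_restrict exists_aut exists_kappa exists_compl_map sepKΩ preserves exists_over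
  val_unram)
open Pool.Agent.W309.TD (locConst_apply compare)
open Pool.Agent.Y160.SE (IsPw)

section crit

variable {p m ℓ : ℕ} {k k' K F N M R B : Type} [Field k] [Field k'] [Algebra k k'] [Field K]
  [Algebra k[X] K] [IsFractionRing k[X] K]
  [Field F] [Algebra k'[X] F] [IsFractionRing k'[X] F] [Algebra K F]
  [Field N] [Algebra K N] [Algebra N (Sep F)] [IsScalarTower K N (Sep F)]
  [Field M] [Algebra F M] [Algebra K M] [IsScalarTower K F M] [Algebra M (Sep F)]
  [IsScalarTower F M (Sep F)]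
  [Algebra N M] [IsScalarTower N M (Sep F)]
  [Algebra k N] [Algebra k' M] [Algebra k M] [IsScalarTower k k' M] [IsScalarTower k N M]
  [CommRing R] [IsDedekindDomain R] [Algebra R N] [IsFractionRing R N]
  [CommRing B] [IsDedekindDomain B] [Algebra B M] [IsFractionRing B M]
  [Algebra R B] [Algebra R M] [IsScalarTower R N M] [IsScalarTower R B M]
  [Algebra.IsIntegral R B] [Module.IsTorsionFree R B] [Algebra k' B] [IsScalarTower k' B M]
  [Algebra k'[X] B] [Algebra.IsIntegral k'[X] B] [Algebra k'[X] M] [IsScalarTower k'[X] F M]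
  [IsScalarTower k'[X] B M] [Module.IsTorsionFree k'[X] B]

variable (B)

include B

/-- The Kummer generator of a locally trivial class killed by `1 - σ`, and its valuations. -/
theorem valMS (hp : p.Prime) (hpm : ℓ = p ^ m) (H : Hyps) (HL : LHyps) (hLoc : StShaLoc)
    (hT : IsTower k k' K F) {f : k[X][X]} {ζ : K}
    (hg : Good ℓ ζ (f.map (algebraMap k[X] K))) (hfm : f.Monic) (hℓk : (ℓ : k') ≠ 0)
    {D : k[X]} {md : ℕ} (hS : SmS f D md)
    {a : Sep F} (ha : Rt (f.map (algebraMap k[X] K)) a)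
    {θ : N} (hθ : algebraMap N (Sep F) θ = a) (hNtop : IntermediateField.adjoin K {θ} = ⊤)
    (htop : IntermediateField.adjoin N (Set.range (algebraMap k' M)) = ⊤)
    (c : (Sep K ≃ₐ[K] Sep K) → Jac ℓ (f.map (algebraMap k[X] K)) (Sep K)) (hc : IsCoc ℓ _ c)
    (hct : ∀ σ, Tor hg (c σ))
    (hcv : ∀ v : HeightOneSpectrum k[X], LocTriv ℓ (f.map (algebraMap k[X] K)) (Comp k[X] K v)
      (Sep (Comp k[X] K v)) c) (j : Sep K ≃ₐ[K] Sep F) :
    ∃ (t : Sep F) (z : N), t ≠ 0 ∧ z ≠ 0 ∧ t ^ ℓ = algebraMap N (Sep F) z ∧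
      (∀ τ : Sep F ≃ₐ[K] Sep F, τ a = a → τ t = chi hg a (tr j c τ) * t) ∧
      ∀ v : HeightOneSpectrum R, (∀ w : HeightOneSpectrum B, w.under R = v →
        algebraMap k'[X] B (D.map (algebraMap k k')) ∉ w.asIdeal) → IsPw ℓ (v.valuation N z) := by
  haveI := hT.sep
  haveI : IsSepClosed k' := IsSepClosure.sep_closed k
  haveI : IsGalois k k' := inferInstance
  have hKF := hT.map
  haveI : IsSepClosure K (Sep F) := sepKΩ hKF
  haveI : Algebra.IsSeparable K (Sep F) := IsSepClosure.separable
  haveI : IsGalois K (Sep F) := inferInstance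
  -- the cocycle of the Galois group of `Sep F` over `K`
  have hgl := tr_lc j hc
  have hmul := tr_mul j hc
  have hg2 : ∀ τ, Tor hg (tr j c τ) := fun τ => (hct _).map _
  -- the Kummer generator
  obtain ⟨t, z, ht, hz, hk⟩ := kummerN H hg ha hθ hNtop hgl hmul hg2
  have hz0 : z ≠ 0 := by
    rintro rfl
    rw [map_zero] at hz
    exact pow_ne_zero ℓ ht hz
  -- the valuations
  have hd := coc_rs (F := F) hgl hmul
  refine ⟨t, z, ht, hz0, hz, hk, fun v hvD => ?_⟩
  obtain ⟨w, rfl⟩ := exists_over (B := B) v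
  rw [← val_unram k (R := R) htop w]
  have hθM : algebraMap M (Sep F) (algebraMap N M θ) = a := by
    rw [← IsScalarTower.algebraMap_apply N M (Sep F), hθ]
  exact parS hp hpm H HL hKF hg hfm hℓk hS hθM ha hd (fun σ => hg2 _)
    (tr_loc hLoc hT _ c hc hcv j) ht (by
    rw [← IsScalarTower.algebraMap_apply N M (Sep F), hz]) (fun σ hσ => hk (σ.restrictScalars K) hσ) w (hvD w rfl)

end crit

end Pool.Agent.X261.TS
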