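import Pool.Agent.X261.TS.Cont

/-!
The twists by products of inert primes: all the conclusions.
-/

set_option autoImplicit false
set_option linter.all false

open Polynomial IsDedekindDomain WithZero
open scoped nonZeroDivisors Classical

namespace Pool.Agent.X261.TS

open Pool.Agent.TH115.GD (IsTower)
open Pool.Agent.Y160
open Pool.Agent.Y160.SE (SmoothC IsPw)
open Pool.Agent.Y160.SL (Concl)
open Pool.Agent.Y160.FT (Pres)
open Pool.Agent.Y160.T7 (PropT)
open Pool.Agent.Y160.RK (ptCl spanD gen_iter)

section concl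

variable {k k' K F : Type} [Field k] [Field k'] [Algebra k k'] [Field K] [Algebra k[X] K]
  [Field F] [Algebra k'[X] F] [IsFractionRing k'[X] F] [Algebra K F] [IsFractionRing k[X] K]

/-- All the conclusions. -/
theorem conclS (hT : IsTower k k' K F) {p q s : ℕ} (hp : p.Prime) (hq : q = p ^ (s + 1)) {ζ : k}
    (hζ : IsPrimitiveRoot ζ q) {f : k[X][X]} (hmon : f.Monic) (hcop : p.Coprime f.natDegree)
    {D : k[X]} (hD : D ≠ 0)
    (hR : ∃ (R : Type) (_ : CommRing R) (_ : IsDedekindDomain R) (_ : Algebra k R) (t x : R),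
      Pres t x f ∧ PropT p k R ∧ ∀ P : k[X], Irreducible P → P ∣ D → Prime (aeval t P))
    (hsep : (f.map (algebraMap k[X] K)).Separable) (hsm : SmoothC f)
    (hirr : Irreducible ((f.map (algebraMap k[X] K)).map (algebraMap K F))) :
    Concl p q 0 k k' F ((f.scaleRoots D).map (algebraMap k[X] K)) := by
  have hirrK : Irreducible (f.map (algebraMap k[X] K)) :=
    Polynomial.Monic.irreducible_of_irreducible_map (algebraMap K F) _ (hmon.map _) hirr
  have hDK : algebraMap k[X] K D ≠ 0 := fun h0 => hD (IsFractionRing.injective k[X] K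
    (by rw [h0, map_zero]))
  have hscale : (f.scaleRoots D).map (algebraMap k[X] K) =
      (f.map (algebraMap k[X] K)).scaleRoots (algebraMap k[X] K D) :=
    map_scaleRoots f D (algebraMap k[X] K) (by
      rw [hmon.leadingCoeff, map_one]
      exact one_ne_zero)
  have hscale2 : ((f.scaleRoots D).map (algebraMap k[X] K)).map (algebraMap K F) =
      ((f.map (algebraMap k[X] K)).map (algebraMap K F)).scaleRoots
        (algebraMap K F (algebraMap k[X] K D)) := by
    rw [hscale]
    refine map_scaleRoots _ _ (algebraMap K F) ?_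
    rw [(hmon.map _).leadingCoeff, map_one]
    exact one_ne_zero
  have hmonS : (f.scaleRoots D).Monic := (monic_scaleRoots_iff D).2 hmon
  have hcopS : p.Coprime (f.scaleRoots D).natDegree := by rwa [natDegree_scaleRoots]
  have hsepS : ((f.scaleRoots D).map (algebraMap k[X] K)).Separable := by
    rw [hscale]
    exact sep_scale hDK hsep
  have hirrKS : Irreducible ((f.scaleRoots D).map (algebraMap k[X] K)) := by
    rw [hscale]
    exact irr_scale hDK hirrK
  have hirrS : Irreducible (((f.scaleRoots D).map (algebraMap k[X] K)).map (algebraMap K F)) := by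
    rw [hscale2]
    exact irr_scale ((_root_.map_ne_zero _).2 hDK) hirr
  obtain ⟨md, hsmS⟩ := smooth_scale hsm hD
  have hg := (SH.good_of hp (Nat.succ_pos s) hq hT hζ hmonS hcopS hsepS).1
  refine ⟨SL.tateAt_of ?_, SL.shaTriv_of ?_, ?_⟩
  · refine contS (K := K) hp hq hmon hcop hirrK hD hR ?_
    intro R N _ _ _ _ _ _ _ _ _ _ _ θ hθ htop hpts
    refine mainCS (R := R) (N := N) hp (Nat.succ_pos s) hq SQ.hyps SQ.lhyps hT hζ hmonS hcopS
      hsepS hsmS hirrS hθ htop ?_
    intro z hz hv hn
    obtain ⟨w, hw, e⟩ := hpts z hz hv hn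
    exact ⟨1, w, 0, one_ne_zero, hw, fun b hb => absurd hb (Multiset.notMem_zero b), by
      rw [e, Multiset.prod_zero, C_1, map_one, map_one, mul_one, one_mul]⟩
  · refine contS (K := K) hp hq hmon hcop hirrK hD hR ?_
    intro R N _ _ _ _ _ _ _ _ _ _ _ θ hθ htop hpts
    refine mainShaS (R := R) (N := N) hp (Nat.succ_pos s) hq SQ.hyps SQ.lhyps
      Pool.Agent.Y141.SH.stShaLoc hT hζ hmonS hcopS hsepS hsmS hirrKS hθ htop ?_
    intro z hz hv hn
    obtain ⟨w, hw, e⟩ := hpts z hz hv hn
    exact ⟨1, w, 0, one_ne_zero, hw, fun b hb => absurd hb (Multiset.notMem_zero b), by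
      rw [e, Multiset.prod_zero, C_1, map_one, map_one, mul_one, one_mul]⟩
  · refine ⟨fun i => i.1.elim0, ?_, ?_⟩
    · haveI : IsEmpty (Fin 0 × Fin (q - 1)) := ⟨fun i => i.1.elim0⟩
      exact linearIndependent_empty_type
    · refine contS (K := K) hp hq hmon hcop hirrK hD hR ?_
      intro R N _ _ _ _ _ _ _ _ _ _ _ θ hθ htop hpts n x
      have hgen : ∀ x : SQ.Jac q ((f.scaleRoots D).map (algebraMap k[X] K)) K,
          ∃ y : SQ.Jac q ((f.scaleRoots D).map (algebraMap k[X] K)) K,
            x - SQ.pe hg K (1 - X) y ∈ spanD hg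
            (fun i : Fin 0 => (i.elim0 : SQ.Jac q ((f.scaleRoots D).map (algebraMap k[X] K)) K)) := by
        intro x
        obtain ⟨T, y, hTP, hx⟩ := mainGenS (R := R) (N := N) hp (Nat.succ_pos s) hq SQ.hyps
          SQ.lhyps FT.inj_all Pool.Agent.Y141.SH.stShaLoc hT hζ hg hmonS hcopS hsepS hsmS hirrKS hθ
          htop ∅ (fun P hP => absurd hP (Set.notMem_empty P)) (by
            intro z hz hv hn
            obtain ⟨w, hw, e⟩ := hpts z hz hv hn
            refine ⟨1, w, 0, one_ne_zero, hw, fun b hb => absurd hb (Multiset.notMem_zero b), ?_⟩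
            rw [e, SQ.dvP_eval, Multiset.map_zero, Multiset.prod_zero, mul_one, C_1, map_one,
              one_mul]) x
        refine ⟨y, ?_⟩
        have hT0 : T = 0 := Multiset.eq_zero_of_forall_notMem fun P hP =>
          Set.notMem_empty P (hTP P hP)
        rw [hx, add_sub_cancel_right, hT0, Multiset.map_zero, Multiset.sum_zero]
        exact AddSubgroup.zero_mem _
      obtain ⟨y, hy⟩ := gen_iter SQ.hyps hg hp hq _ hgen n x
      refine ⟨y, ?_⟩
      refine AddSubgroup.closure_mono ?_ hy
      rintro _ ⟨i, rfl⟩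
      exact i.1.elim0

end concl

end Pool.Agent.X261.TS
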