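import Pool.Agent.Y228.SE.Sm

/-!
Smoothness at the places which do not divide `D`.
-/

set_option autoImplicit false
set_option linter.all false

open Polynomial IsDedekindDomain WithZero
open scoped nonZeroDivisors

namespace Pool.Agent.X261.TS

open Pool.Agent.Y228.SE

theorem smS (k F : Type) [Field k] [Field F] [Algebra k[X] F] [IsFractionRing k[X] F]
    (v : HeightOneSpectrum k[X]) (f : k[X][X]) (D : k[X]) (m : ℕ)
    (hf : (C D ^ m : k[X][X]) ∈ (Ideal.span {f, derivative f, f.sum fun i a => C (derivative a) * X ^ i} :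
      Ideal k[X][X])) (hD : D ∉ v.asIdeal) (a : (v.adicCompletionIntegers F)[X])
    (ha : a.Monic) (hirr : Irreducible (a.map (IsLocalRing.residue (v.adicCompletionIntegers F)))) :
    f.map (algebraMap k[X] (v.adicCompletionIntegers F)) ∉
      (Ideal.span {a} ⊔ (IsLocalRing.maximalIdeal (v.adicCompletionIntegers F)).map C) ^ 2 := by
  intro hmem
  obtain ⟨π, hπ⟩ := v.intValuation_exists_uniformizer
  set φ : k[X][X] →+* (v.adicCompletionIntegers F)[X] := mapRingHom (algebraMap k[X] (v.adicCompletionIntegers F)) with hφ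
  set J : Ideal (v.adicCompletionIntegers F)[X] := Ideal.span {a} ⊔ (IsLocalRing.maximalIdeal (v.adicCompletionIntegers F)).map C with hJ
  set J0 : Ideal k[X][X] := J.comap φ with hJ0
  have hvm : ∀ c ∈ v.asIdeal, algebraMap k[X] (v.adicCompletionIntegers F) c ∈ IsLocalRing.maximalIdeal (v.adicCompletionIntegers F) := by
    intro c hc
    rw [IsLocalRing.mem_maximalIdeal, mem_nonunits_iff,
      HeightOneSpectrum.adicCompletionIntegers.isUnit_iff_valued_eq_one]
    change ¬ Valued.v ((algebraMap k[X] F c : F) : v.adicCompletion F) = 1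
    rw [HeightOneSpectrum.valuedAdicCompletion_eq_valuation']
    exact ((v.valuation_lt_one_iff_mem c).2 hc).ne
  have hπv : π ∈ v.asIdeal := by
    rw [← v.intValuation_lt_one_iff_mem, hπ, ← exp_zero]
    exact exp_lt_exp.2 (by norm_num)
  have hCJ : ∀ m ∈ IsLocalRing.maximalIdeal (v.adicCompletionIntegers F), C m ∈ J := fun m hm =>
    Ideal.mem_sup_right (Ideal.mem_map_of_mem C hm)
  have hCπ : C (algebraMap k[X] (v.adicCompletionIntegers F) π ^ 2) ∈ J := by
    refine hCJ _ ?_
    exact Ideal.pow_mem_of_mem _ (hvm π hπv) 2 (by norm_num)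
  have hC0 : v.asIdeal.map C ≤ J0 := by
    rw [Ideal.map_le_iff_le_comap]
    intro c hc
    rw [Ideal.mem_comap, hJ0, Ideal.mem_comap]
    have : φ (C c) = C (algebraMap k[X] (v.adicCompletionIntegers F) c) := by rw [hφ, coe_mapRingHom, map_C]
    rw [this]
    exact hCJ _ (hvm c hc)
  -- approximation of the elements of `J ^ 2`
  have key : ∀ w ∈ J ^ 2, ∃ w0 ∈ J0 ^ 2, ∃ h : (v.adicCompletionIntegers F)[X], w = φ w0 + C (algebraMap k[X] (v.adicCompletionIntegers F) π ^ 2) * h := by
    intro w hw
    rw [pow_two] at hw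
    refine Submodule.mul_induction_on hw ?_ ?_
    · intro m hm n hn
      obtain ⟨m0, m1, hm1⟩ := approx_poly (F := F) v π hπ m
      obtain ⟨n0, n1, hn1⟩ := approx_poly (F := F) v π hπ n
      have hm0 : m0 ∈ J0 := by
        rw [hJ0, Ideal.mem_comap]
        have : φ m0 = m - C (algebraMap k[X] (v.adicCompletionIntegers F) π ^ 2) * m1 := by
          rw [hm1]
          change _ = φ m0 + _ - _
          ring
        rw [this]
        exact Ideal.sub_mem _ hm (Ideal.mul_mem_right _ _ hCπ)
      have hn0 : n0 ∈ J0 := by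
        rw [hJ0, Ideal.mem_comap]
        have : φ n0 = n - C (algebraMap k[X] (v.adicCompletionIntegers F) π ^ 2) * n1 := by
          rw [hn1]
          change _ = φ n0 + _ - _
          ring
        rw [this]
        exact Ideal.sub_mem _ hn (Ideal.mul_mem_right _ _ hCπ)
      refine ⟨m0 * n0, ?_, φ m0 * n1 + m1 * φ n0 + C (algebraMap k[X] (v.adicCompletionIntegers F) π ^ 2) * m1 * n1, ?_⟩
      · rw [pow_two]
        exact Ideal.mul_mem_mul hm0 hn0
      · have e1 : m = φ m0 + C (algebraMap k[X] (v.adicCompletionIntegers F) π ^ 2) * m1 := hm1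
        have e2 : n = φ n0 + C (algebraMap k[X] (v.adicCompletionIntegers F) π ^ 2) * n1 := hn1
        rw [map_mul]
        conv_lhs => rw [e1, e2]
        ring
    · rintro x y ⟨x0, hx0, x1, hx⟩ ⟨y0, hy0, y1, hy⟩
      refine ⟨x0 + y0, Ideal.add_mem _ hx0 hy0, x1 + y1, ?_⟩
      rw [map_add]
      linear_combination hx + hy
  obtain ⟨w0, hw0, h, hw⟩ := key _ hmem
  have hfw : f - w0 ∈ J0 ^ 2 := by
    have h1 : φ (f - w0) = C (algebraMap k[X] (v.adicCompletionIntegers F) π ^ 2) * h := by
      rw [map_sub]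
      have : φ f = f.map (algebraMap k[X] (v.adicCompletionIntegers F)) := rfl
      rw [this, hw]
      ring
    have h2 : f - w0 ∈ (v.asIdeal ^ 2).map C := by
      rw [Ideal.mem_map_C_iff]
      intro n
      refine mem_sq_of_dvd (F := F) v π hπ _ (h.coeff n) ?_
      have h3 := congrArg (fun p => coeff p n) h1
      simp only [coeff_C_mul] at h3
      rw [← h3, hφ, coe_mapRingHom, coeff_map]
    rw [Ideal.map_pow] at h2
    exact Ideal.pow_right_mono hC0 2 h2
  have hfJ : f ∈ J0 ^ 2 := by
    have := Ideal.add_mem _ hfw hw0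
    rwa [sub_add_cancel] at this
  have hd : ∀ w ∈ J0 ^ 2, w ∈ J0 ∧ derivative w ∈ J0 ∧ dt w ∈ J0 := by
    intro w hw
    rw [pow_two] at hw
    refine Submodule.mul_induction_on hw ?_ ?_
    · intro m hm n hn
      refine ⟨Ideal.mul_mem_left _ _ hn, ?_, ?_⟩
      · rw [derivative_mul]
        exact Ideal.add_mem _ (Ideal.mul_mem_left _ _ hn) (Ideal.mul_mem_right _ _ hm)
      · rw [dt_mul]
        exact Ideal.add_mem _ (Ideal.mul_mem_left _ _ hn) (Ideal.mul_mem_right _ _ hm)
    · rintro x y ⟨h1, h2, h3⟩ ⟨h4, h5, h6⟩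
      refine ⟨Ideal.add_mem _ h1 h4, ?_, ?_⟩
      · rw [derivative_add]
        exact Ideal.add_mem _ h2 h5
      · rw [dt_add]
        exact Ideal.add_mem _ h3 h6
  obtain ⟨h1, h2, h3⟩ := hd f hfJ
  have htop : (C D ^ m : k[X][X]) ∈ J0 := by
    have hle : (Ideal.span {f, derivative f, f.sum fun i a => C (derivative a) * X ^ i} :
      Ideal k[X][X]) ≤ J0 := by
      rw [Ideal.span_le]
      rintro x (rfl | rfl | rfl)
      · exact h1
      · exact h2
      · exact h3
    exact hle hf
  have hone : (1 : (v.adicCompletionIntegers F)[X]) ∈ J := by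
    rw [hJ0, Ideal.mem_comap, map_pow] at htop
    have hu : IsUnit (algebraMap k[X] (v.adicCompletionIntegers F) D) := by
      rw [HeightOneSpectrum.adicCompletionIntegers.isUnit_iff_valued_eq_one]
      change Valued.v ((algebraMap k[X] F D : F) : v.adicCompletion F) = 1
      rw [HeightOneSpectrum.valuedAdicCompletion_eq_valuation']
      exact le_antisymm (v.valuation_le_one D) (not_lt.1 fun h =>
        hD ((v.valuation_lt_one_iff_mem D).1 h))
    have hC : φ (C D) = C (algebraMap k[X] (v.adicCompletionIntegers F) D) := by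
      rw [hφ, coe_mapRingHom, map_C]
    rw [hC] at htop
    have hu2 : IsUnit ((C (algebraMap k[X] (v.adicCompletionIntegers F) D)) ^ m :
      (v.adicCompletionIntegers F)[X]) := (isUnit_C.2 hu).pow m
    have := Ideal.eq_top_of_isUnit_mem J htop hu2
    rw [this]
    trivial
  have hle : J ≤ (Ideal.span {a.map (IsLocalRing.residue (v.adicCompletionIntegers F))}).comap
      (mapRingHom (IsLocalRing.residue (v.adicCompletionIntegers F))) := by
    rw [hJ, sup_le_iff]
    constructor
    · rw [Ideal.span_le, Set.singleton_subset_iff, SetLike.mem_coe, Ideal.mem_comap]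
      exact Ideal.subset_span rfl
    · rw [Ideal.map_le_iff_le_comap]
      intro m hm
      rw [Ideal.mem_comap, Ideal.mem_comap, coe_mapRingHom, map_C,
        (IsLocalRing.residue_eq_zero_iff _).2 hm, C_0]
      exact Ideal.zero_mem _
  have h4 := hle hone
  rw [Ideal.mem_comap, map_one, ← Ideal.eq_top_iff_one, Ideal.span_singleton_eq_top] at h4
  exact hirr.not_isUnit h4

end Pool.Agent.X261.TS
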