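import Pool.Agent.X261.TS.Ext
import Pool.Agent.X261.AA.Ext

/-!
Tower curves and their inert primes over extensions of the constants of `p`-power degree.
-/

set_option autoImplicit false
set_option linter.all false

open Polynomial IsDedekindDomain
open scoped Classical

namespace Pool.Agent.X261.TS

open Pool.Agent.TH115.GD (IsTower incl rs ak Sep Comp)
open Pool.Agent.Y160
open Pool.Agent.Y160.SL (Concl IsTowerCurve atZero powT)

section tower

variable {k k' : Type} [Field k] [Field k'] [Algebra k k']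

theorem swap_map (φ : k →+* k') (f : k[X][X]) :
    (Bivariate.swap f).map (mapRingHom φ) = Bivariate.swap (f.map (mapRingHom φ)) := by
  induction f using Polynomial.induction_on' with
  | add p q hp hq =>
    rw [map_add, Polynomial.map_add, hp, hq, Polynomial.map_add, map_add]
  | monomial n a =>
    rw [← C_mul_X_pow_eq_monomial, map_mul, map_pow, Bivariate.swap_Y, Polynomial.map_mul,
      Polynomial.map_mul, Polynomial.map_pow, Polynomial.map_pow, map_C, map_C, map_X, map_mul,
      map_pow, Bivariate.swap_Y]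
    have e1 : Bivariate.swap (C a : k[X][X]) = a.map C := Bivariate.swap_C a
    have e2 : Bivariate.swap (C (mapRingHom φ a) : k'[X][X]) = (a.map φ).map C :=
      Bivariate.swap_C (a.map φ)
    rw [e1, e2, Polynomial.map_map, Polynomial.map_map]
    have e3 : (mapRingHom φ).comp (C : k →+* k[X]) = (C : k' →+* k'[X]).comp φ :=
      RingHom.ext fun x => by
        show (C x).map φ = C (φ x)
        rw [map_C]
    rw [e3]
    congr 2
    show C ((X : k[X]).map φ) = C X
    rw [map_X]

theorem atZero_map (φ : k →+* k') (f : k[X][X]) :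
    atZero (f.map (mapRingHom φ)) = (atZero f).map φ := by
  unfold atZero
  rw [Polynomial.map_map, Polynomial.map_map]
  congr 1
  apply RingHom.ext
  intro g
  show (g.map φ).eval 0 = φ (g.eval 0)
  rw [← map_zero φ, eval_map_apply]

theorem powT_map (φ : k →+* k') (p : ℕ) (f : k[X][X]) :
    powT p (f.map (mapRingHom φ)) = (powT p f).map (mapRingHom φ) := by
  unfold powT
  rw [Polynomial.map_map, Polynomial.map_map]
  congr 1
  apply RingHom.ext
  intro g
  show expand k' p (g.map φ) = (expand k p g).map φ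
  rw [map_expand]

variable [FiniteDimensional k k']

/-- Tower curves over extensions of `p`-power degree. -/
theorem tower_map {p a : ℕ} (hp : p.Prime) (hd : Module.finrank k k' = p ^ a) {f : k[X][X]}
    (hf : IsTowerCurve p f) : IsTowerCurve p (f.map (mapRingHom (algebraMap k k'))) := by
  induction hf with
  | line =>
    rw [map_X]
    exact IsTowerCurve.line
  | unit f c hc hf ih =>
    have e : (C (C c) * f : k[X][X]).map (mapRingHom (algebraMap k k')) =
        C (C (algebraMap k k' c)) * f.map (mapRingHom (algebraMap k k')) := by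
      rw [Polynomial.map_mul, map_C]
      congr 2
      show (C c).map (algebraMap k k') = _
      rw [map_C]
    rw [e]
    exact ih.unit _ _ ((_root_.map_ne_zero _).2 hc)
  | swap f hf ih =>
    rw [swap_map]
    exact ih.swap
  | shear f c b hc hf ih =>
    have e : (f.comp (C (C c) * X + C b)).map (mapRingHom (algebraMap k k')) =
        (f.map (mapRingHom (algebraMap k k'))).comp
          (C (C (algebraMap k k' c)) * X + C (b.map (algebraMap k k'))) := by
      rw [Polynomial.map_comp, Polynomial.map_add, Polynomial.map_mul, map_C, map_C, map_X]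
      congr 4
      show (C c).map (algebraMap k k') = _
      rw [map_C]
    rw [e]
    exact ih.shear _ _ _ ((_root_.map_ne_zero _).2 hc)
  | root f h1 h2 h3 hf ih =>
    rw [← powT_map]
    refine ih.root _ ?_ ?_ ?_
    · rw [atZero_map]
      refine Pool.Agent.X261.AA.irr_of_coprime h1 ?_
      rw [hd]
      exact h3.pow_left a
    · rw [atZero_map]
      exact h2.map
    · rw [atZero_map, natDegree_map]
      exact h3

end tower

section inert

variable {k k' : Type} [Field k] [Field k'] [Algebra k k'] [Finite k] [Finite k']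

/-- The homomorphism of residue fields. -/
noncomputable def resMap {P : k[X]} {Q : k'[X]} (h : Q ∣ P.map (algebraMap k k')) :
    AdjoinRoot P →+* AdjoinRoot Q :=
  AdjoinRoot.lift ((AdjoinRoot.of Q).comp (algebraMap k k')) (AdjoinRoot.root Q) (by
    rw [← eval₂_map]
    obtain ⟨Z, hZ⟩ := h
    rw [hZ, eval₂_mul, AdjoinRoot.eval₂_root, zero_mul])

theorem resMap_mk {P : k[X]} {Q : k'[X]} (h : Q ∣ P.map (algebraMap k k')) :
    (resMap h).comp (AdjoinRoot.mk P) =
      (AdjoinRoot.mk Q).comp (mapRingHom (algebraMap k k')) := by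
  apply RingHom.ext
  intro g
  show resMap h (AdjoinRoot.mk P g) = AdjoinRoot.mk Q (g.map (algebraMap k k'))
  unfold resMap
  rw [AdjoinRoot.lift_mk, ← eval₂_map, ← AdjoinRoot.aeval_eq, aeval_def]
  rfl

theorem card_adjoin {F : Type} [Field F] [Finite F] {P : F[X]} (hP : Irreducible P) :
    Nat.card (AdjoinRoot P) = Nat.card F ^ P.natDegree := by
  haveI : Module.Finite F (AdjoinRoot P) := (AdjoinRoot.powerBasis hP.ne_zero).finite
  rw [Module.natCard_eq_pow_finrank (K := F) (V := AdjoinRoot P),
    PowerBasis.finrank (AdjoinRoot.powerBasis hP.ne_zero), AdjoinRoot.powerBasis_dim hP.ne_zero]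

theorem inert_mod {p a : ℕ} (hd : Module.finrank k k' = p ^ a) {f : k[X][X]} (hf : f.Monic)
    (hcop : p.Coprime f.natDegree) {P : k[X]} (hP : Irreducible P)
    (hin : Irreducible (f.map (AdjoinRoot.mk P))) {Q : k'[X]} (hQ : Irreducible Q)
    (hQP : Q ∣ P.map (algebraMap k k')) :
    Irreducible ((f.map (mapRingHom (algebraMap k k'))).map (AdjoinRoot.mk Q)) := by
  haveI : Fact (Irreducible P) := ⟨hP⟩
  haveI : Fact (Irreducible Q) := ⟨hQ⟩
  letI : Algebra (AdjoinRoot P) (AdjoinRoot Q) := (resMap hQP).toAlgebra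
  haveI : Finite (AdjoinRoot P) := by
    haveI : Module.Finite k (AdjoinRoot P) := (AdjoinRoot.powerBasis hP.ne_zero).finite
    exact Module.finite_of_finite k
  haveI : Finite (AdjoinRoot Q) := by
    haveI : Module.Finite k' (AdjoinRoot Q) := (AdjoinRoot.powerBasis hQ.ne_zero).finite
    exact Module.finite_of_finite k'
  haveI : Module.Finite (AdjoinRoot P) (AdjoinRoot Q) := Module.Finite.of_finite
  haveI : Module.Finite k k' := Module.Finite.of_finite
  have h1 : Nat.card (AdjoinRoot Q) =
      Nat.card (AdjoinRoot P) ^ Module.finrank (AdjoinRoot P) (AdjoinRoot Q) :=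
    Module.natCard_eq_pow_finrank
  have h2 : Nat.card k' = Nat.card k ^ Module.finrank k k' := Module.natCard_eq_pow_finrank
  rw [card_adjoin hP, card_adjoin hQ, h2, ← pow_mul, ← pow_mul] at h1
  have h3 := Nat.pow_right_injective (Finite.one_lt_card (α := k)) h1
  obtain ⟨u, hu⟩ := Pool.Agent.X231.BT.deg_dvd hP hQ hQP
  have hQ0 := hQ.natDegree_pos
  rw [hu] at h3
  have h4 : Module.finrank k k' = u * Module.finrank (AdjoinRoot P) (AdjoinRoot Q) := by
    apply Nat.eq_of_mul_eq_mul_left hQ0
    calc Q.natDegree * Module.finrank k k' = Module.finrank k k' * Q.natDegree := mul_comm _ _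
      _ = _ := h3
      _ = _ := by ring
  have h5 : Module.finrank (AdjoinRoot P) (AdjoinRoot Q) ∣ p ^ a := by
    rw [← hd, h4]
    exact dvd_mul_left _ _
  have h6 : (f.map (mapRingHom (algebraMap k k'))).map (AdjoinRoot.mk Q) =
      (f.map (AdjoinRoot.mk P)).map (algebraMap (AdjoinRoot P) (AdjoinRoot Q)) := by
    rw [Polynomial.map_map, Polynomial.map_map]
    congr 1
    exact (resMap_mk hQP).symm
  rw [h6]
  refine Pool.Agent.X261.AA.irr_of_coprime hin ?_
  rw [hf.natDegree_map]
  exact Nat.Coprime.coprime_dvd_left h5 (hcop.pow_left a)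

theorem exists_below {D : k[X]} (hD : D ≠ 0) {Q : k'[X]} (hQ : Irreducible Q)
    (hd : Q ∣ D.map (algebraMap k k')) : ∃ P : k[X], Irreducible P ∧ P ∣ D ∧
      Q ∣ P.map (algebraMap k k') := by
  have key : ∀ (n : ℕ) (Z : k[X]), Z.natDegree = n → Z ≠ 0 → Z ∣ D →
      Q ∣ Z.map (algebraMap k k') → ∃ P : k[X], Irreducible P ∧ P ∣ D ∧
        Q ∣ P.map (algebraMap k k') := by
    intro n
    induction n using Nat.strong_induction_on with
    | _ n ih =>
      intro Z hn hZ0 hZD hQZ
      by_cases hu : IsUnit Z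
      · exact absurd (isUnit_of_dvd_unit hQZ (hu.map (mapRingHom (algebraMap k k'))))
          hQ.not_isUnit
      · obtain ⟨P, hP, Y, hY⟩ := WfDvdMonoid.exists_irreducible_factor hu hZ0
        rw [hY, Polynomial.map_mul] at hQZ
        rcases hQ.prime.dvd_or_dvd hQZ with h | h
        · exact ⟨P, hP, (Dvd.intro _ hY.symm).trans hZD, h⟩
        · have hY0 : Y ≠ 0 := by
            rintro rfl
            rw [mul_zero] at hY
            exact hZ0 hY
          refine ih Y.natDegree ?_ Y rfl hY0 ((Dvd.intro_left _ hY.symm).trans hZD) h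
          rw [← hn, hY, natDegree_mul hP.ne_zero hY0]
          have := hP.natDegree_pos
          omega
  exact key _ D rfl hD dvd_rfl hd

/-- All the conclusions over the extensions of `p`-power degree. -/
theorem tower_ext {p s a : ℕ} (hp : p.Prime) (hd : Module.finrank k k' = p ^ a) {f : k[X][X]}
    (hf : IsTowerCurve p f) (hmon : f.Monic) (hcop : p.Coprime f.natDegree)
    (hder : derivative f ≠ 0) {D : k[X]} (hD : D ≠ 0)
    (hin : ∀ P : k[X], Irreducible P → P ∣ D → Irreducible (f.map (AdjoinRoot.mk P)))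
    {kb K F : Type} [Field kb] [Algebra k' kb] [Field K] [Algebra k'[X] K]
    [IsFractionRing k'[X] K] [Field F] [Algebra kb[X] F] [IsFractionRing kb[X] F] [Algebra K F]
    (hT : IsTower k' kb K F) {ζ : k'} (hζ : IsPrimitiveRoot ζ (p ^ (s + 1))) {D' : k'[X]}
    (hD' : D' ≠ 0)
    (hdd : ∀ Q : k'[X], Irreducible Q → Q ∣ D' → Q ∣ D.map (algebraMap k k')) :
    Concl p (p ^ (s + 1)) 0 k' kb F
      (((f.map (mapRingHom (algebraMap k k'))).scaleRoots D').map (algebraMap k'[X] K)) := by
  haveI : FiniteDimensional k k' := Module.Finite.of_finite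
  have hf' := tower_map hp hd hf
  have hmon' : (f.map (mapRingHom (algebraMap k k'))).Monic := hmon.map _
  have hcop' : p.Coprime (f.map (mapRingHom (algebraMap k k'))).natDegree := by
    rwa [hmon.natDegree_map]
  have hirrK : Irreducible ((f.map (mapRingHom (algebraMap k k'))).map (algebraMap k'[X] K)) :=
    Polynomial.Monic.irreducible_of_irreducible_map (algebraMap K F) _ (hmon'.map _)
      (irrF hT hp hf' hmon')
  have hinj : Function.Injective (mapRingHom (algebraMap k k')) :=
    Polynomial.map_injective _ (algebraMap k k').injective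
  have hsep : ((f.map (mapRingHom (algebraMap k k'))).map (algebraMap k'[X] K)).Separable := by
    rw [separable_iff_derivative_ne_zero hirrK, derivative_map, derivative_map,
      Polynomial.map_ne_zero_iff (IsFractionRing.injective k'[X] K),
      Polynomial.map_ne_zero_iff hinj]
    exact hder
  refine towerS hT hp hζ hf' hmon' hcop' hsep hD' fun Q hQ hQD => ?_
  obtain ⟨P, hP, hPD, hQP⟩ := exists_below hD hQ (hdd Q hQ hQD)
  exact inert_mod hd hmon hcop hP (hin P hP hPD) hQ hQP

end inert

section sel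

variable {K A : Type} [Field K] [CommRing A] [IsDedekindDomain A] [Algebra A K]
  [IsFractionRing A K] {q : ℕ} {F : K[X]} {ζ : K}

/-- If the Tate-Shafarevich group is zero and `J(K)` is divisible, the Selmer group is zero. -/
theorem sel_zero (hg : SQ.Good q ζ F) {p : ℕ} (hsha : SH.ShaTriv p q A F)
    (hdiv : ∀ (n : ℕ) (x : SQ.Jac q F K), ∃ y, x = p ^ n • y) (m : ℕ)
    (c : (Sep K ≃ₐ[K] Sep K) → SQ.Jac q F (Sep K)) (hc : SQ.IsCoc q F c)
    (h2 : ∀ σ, p ^ m • c σ = 0)
    (hv : ∀ v : HeightOneSpectrum A, SQ.LocTriv q F (Comp A K v) (Sep (Comp A K v)) c) :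
    ∃ (R : SQ.Jac q F (Sep K)), p ^ m • R = 0 ∧ ∀ σ, c σ = SQ.jm q F (rs K σ) R - R := by
  obtain ⟨P, hP⟩ := hsha c hc ⟨m, 0, fun σ => by rw [h2, map_zero, sub_zero]⟩ hv
  have hfix : ∀ τ : Sep K ≃ₐ[K] Sep K, SQ.jm q F (rs K τ) (p ^ m • P) = p ^ m • P := by
    intro τ
    have h1 := h2 τ
    rw [hP, smul_sub, sub_eq_zero] at h1
    rw [map_nsmul]
    exact h1
  obtain ⟨x, hx⟩ := SQ.fixed_class (K := K) (E := K) (Ω := Sep K) SQ.hyps hg (p ^ m • P) hfix
  obtain ⟨y, hy⟩ := hdiv m x
  refine ⟨P - SQ.jm q F (incl K K (Sep K)) y, ?_, fun σ => ?_⟩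
  · rw [smul_sub, ← map_nsmul, ← hy, hx, sub_self]
  · have h3 : SQ.jm q F (rs K σ) (SQ.jm q F (incl K K (Sep K)) y) =
        SQ.jm q F (incl K K (Sep K)) y := by
      rw [SQ.jm_jm]
      congr 2
      exact AlgHom.ext fun x => (rs K σ).commutes x
    rw [hP, map_sub, h3]
    abel

end sel

end Pool.Agent.X261.TS

namespace Pool.Agent.X261.TS

open Pool.Agent.TH115.GD (IsTower incl rs ak Sep Comp)
open Pool.Agent.Y160
open Pool.Agent.Y160.SL (Concl IsTowerCurve atZero powT)

section good

variable {k kb K F : Type} [Field k] [Field kb] [Algebra k kb] [Field K] [Algebra k[X] K]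
  [IsFractionRing k[X] K] [Field F] [Algebra kb[X] F] [IsFractionRing kb[X] F] [Algebra K F]

theorem good_twist (hT : IsTower k kb K F) {p s : ℕ} (hp : p.Prime) {ζ : k}
    (hζ : IsPrimitiveRoot ζ (p ^ (s + 1))) {f : k[X][X]} (hmon : f.Monic)
    (hcop : p.Coprime f.natDegree) (hsep : (f.map (algebraMap k[X] K)).Separable) {D : k[X]}
    (hD : D ≠ 0) : SQ.Good (p ^ (s + 1)) (algebraMap k[X] K (C ζ))
      ((f.scaleRoots D).map (algebraMap k[X] K)) := by
  have hDK : algebraMap k[X] K D ≠ 0 := fun h0 => hD (IsFractionRing.injective k[X] K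
    (by rw [h0, map_zero]))
  have hscale : (f.scaleRoots D).map (algebraMap k[X] K) =
      (f.map (algebraMap k[X] K)).scaleRoots (algebraMap k[X] K D) :=
    map_scaleRoots f D (algebraMap k[X] K) (by
      rw [hmon.leadingCoeff, map_one]
      exact one_ne_zero)
  have hmonS : (f.scaleRoots D).Monic := (monic_scaleRoots_iff D).2 hmon
  have hcopS : p.Coprime (f.scaleRoots D).natDegree := by rwa [natDegree_scaleRoots]
  have hsepS : ((f.scaleRoots D).map (algebraMap k[X] K)).Separable := by
    rw [hscale]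
    exact sep_scale hDK hsep
  exact (SH.good_of hp (Nat.succ_pos s) rfl hT hζ hmonS hcopS hsepS).1

end good

section all

variable {k k' : Type} [Field k] [Field k'] [Algebra k k'] [Finite k] [Finite k']

/-- The Tate-Shafarevich group, the Mordell-Weil group and the Selmer group over the extensions of
`p`-power degree. -/
theorem tower_all {p s a : ℕ} (hp : p.Prime) (hd : Module.finrank k k' = p ^ a) {f : k[X][X]}
    (hf : IsTowerCurve p f) (hmon : f.Monic) (hcop : p.Coprime f.natDegree)
    (hder : derivative f ≠ 0) {D : k[X]} (hD : D ≠ 0)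
    (hin : ∀ P : k[X], Irreducible P → P ∣ D → Irreducible (f.map (AdjoinRoot.mk P)))
    {K : Type} [Field K] [Algebra k'[X] K] [IsFractionRing k'[X] K] {ζ : k'}
    (hζ : IsPrimitiveRoot ζ (p ^ (s + 1))) {D' : k'[X]} (hD' : D' ≠ 0)
    (hdd : ∀ Q : k'[X], Irreducible Q → Q ∣ D' → Q ∣ D.map (algebraMap k k')) :
    SL.ShaTriv p (p ^ (s + 1)) k'[X]
      (((f.map (mapRingHom (algebraMap k k'))).scaleRoots D').map (algebraMap k'[X] K)) ∧
    (∀ (n : ℕ) (x : SL.Jac (p ^ (s + 1))
      (((f.map (mapRingHom (algebraMap k k'))).scaleRoots D').map (algebraMap k'[X] K)) K),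
        ∃ y, x = p ^ n • y) ∧
    ∀ (m : ℕ) (c : (Sep K ≃ₐ[K] Sep K) → SL.Jac (p ^ (s + 1))
      (((f.map (mapRingHom (algebraMap k k'))).scaleRoots D').map (algebraMap k'[X] K)) (Sep K)),
      SL.IsCoc (p ^ (s + 1)) _ c → (∀ σ, p ^ m • c σ = 0) →
      (∀ v : HeightOneSpectrum k'[X], SL.LocTriv (p ^ (s + 1)) _ (Comp k'[X] K v)
        (Sep (Comp k'[X] K v)) c) →
      ∃ R : SL.Jac (p ^ (s + 1))
        (((f.map (mapRingHom (algebraMap k k'))).scaleRoots D').map (algebraMap k'[X] K)) (Sep K),
        p ^ m • R = 0 ∧ SL.IsCobOf (p ^ (s + 1)) _ c R := by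
  obtain ⟨kb, F, _, _, _, _, _, _, hT⟩ := exists_tower k' K
  have h := tower_ext hp hd hf hmon hcop hder hD hin hT hζ hD' hdd
  have hdiv := divisible h.basis
  refine ⟨h.sha, hdiv, fun m c hc h2 hv => ?_⟩
  haveI : FiniteDimensional k k' := Module.Finite.of_finite
  have hf' := tower_map hp hd hf
  have hmon' : (f.map (mapRingHom (algebraMap k k'))).Monic := hmon.map _
  have hcop' : p.Coprime (f.map (mapRingHom (algebraMap k k'))).natDegree := by
    rwa [hmon.natDegree_map]
  have hirrK : Irreducible ((f.map (mapRingHom (algebraMap k k'))).map (algebraMap k'[X] K)) :=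
    Polynomial.Monic.irreducible_of_irreducible_map (algebraMap K F) _ (hmon'.map _)
      (irrF hT hp hf' hmon')
  have hinj : Function.Injective (mapRingHom (algebraMap k k')) :=
    Polynomial.map_injective _ (algebraMap k k').injective
  have hsep : ((f.map (mapRingHom (algebraMap k k'))).map (algebraMap k'[X] K)).Separable := by
    rw [separable_iff_derivative_ne_zero hirrK, derivative_map, derivative_map,
      Polynomial.map_ne_zero_iff (IsFractionRing.injective k'[X] K),
      Polynomial.map_ne_zero_iff hinj]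
    exact hder
  have hg := good_twist hT hp hζ hmon' hcop' hsep hD'
  exact sel_zero (A := k'[X]) hg (fun c hc hp hv => h.sha c ⟨hc.lc, hc.mul⟩ hp hv) hdiv m c
    ⟨hc.lc, hc.mul⟩ h2 hv

end all

end Pool.Agent.X261.TS
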